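import Mathlib

set_option autoImplicit false
open Finset UpperHalfPlane ModularForm Filter PowerSeries Topology
open scoped MatrixGroups Real

noncomputable section

namespace Pool.Agent.helper12.PE

/-- The Taylor series at `0`. -/
def tay (f : ℂ → ℂ) : ℂ⟦X⟧ := .mk fun m ↦ (↑m.factorial)⁻¹ * iteratedDeriv m f 0

lemma tay_coeff (f : ℂ → ℂ) (m : ℕ) : coeff m (tay f) = (↑m.factorial)⁻¹ * iteratedDeriv m f 0 := by
  simp [tay]

lemma tay_congr {f g : ℂ → ℂ} (h : f =ᶠ[𝓝 0] g) : tay f = tay g := by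
  ext m
  rw [tay_coeff, tay_coeff, h.iteratedDeriv_eq]

lemma tay_mul {f g : ℂ → ℂ} (hf : AnalyticAt ℂ f 0) (hg : AnalyticAt ℂ g 0) :
    tay (f * g) = tay f * tay g := by
  ext
  simp only [tay_coeff, iteratedDeriv_mul hf.contDiffAt hg.contDiffAt, Finset.mul_sum,
    PowerSeries.coeff_mul, Finset.Nat.sum_antidiagonal_eq_sum_range_succ_mk, Nat.succ_eq_add_one]
  refine Finset.sum_congr rfl fun i hi ↦ ?_
  rw [Nat.cast_choose _ (by grind)]
  field_simp [Nat.factorial_ne_zero]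

lemma tay_sub {f g : ℂ → ℂ} (hf : AnalyticAt ℂ f 0) (hg : AnalyticAt ℂ g 0) :
    tay (f - g) = tay f - tay g := by
  ext m
  rw [map_sub, tay_coeff, tay_coeff, tay_coeff, iteratedDeriv_sub hf.contDiffAt hg.contDiffAt]
  ring

lemma tay_one : tay 1 = 1 := by
  ext m
  have h2 : iteratedDeriv m (1 : ℂ → ℂ) 0 = if m = 0 then 1 else 0 := by
    simpa [ite_apply] using! iteratedDeriv_const
  rw [tay_coeff, h2, coeff_one]
  split_ifs with h
  · simp [h]
  · simp

lemma tay_id : tay id = X := by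
  ext m
  rw [tay_coeff, coeff_X]
  match m with
  | 0 => simp
  | 1 => simp [iteratedDeriv_one]
  | m + 2 =>
    rw [if_neg (by omega), iteratedDeriv_succ', iteratedDeriv_succ']
    simp

lemma tay_pow {f : ℂ → ℂ} (hf : AnalyticAt ℂ f 0) (n : ℕ) : tay (f ^ n) = tay f ^ n := by
  induction n with
  | zero => simpa using tay_one
  | succ n ih => rw [pow_succ, pow_succ, tay_mul (hf.pow n) hf, ih]

lemma tay_prod (s : Finset ℕ) {f : ℕ → ℂ → ℂ} (hf : ∀ i, AnalyticAt ℂ (f i) 0) :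
    tay (∏ i ∈ s, f i) = ∏ i ∈ s, tay (f i) := by
  classical
  induction s using Finset.induction_on with
  | empty => simpa using tay_one
  | insert a s ha ih =>
    rw [Finset.prod_insert ha, Finset.prod_insert ha, tay_mul (hf a) _, ih]
    exact Finset.analyticAt_prod _ fun i _ => hf i

lemma tendsto_iteratedDeriv {ι : Type*} {l : Filter ι} [l.NeBot] {F : ι → ℂ → ℂ} {f : ℂ → ℂ}
    {U : Set ℂ} (hU : IsOpen U) (hF : ∀ i, DifferentiableOn ℂ (F i) U)
    (h : TendstoLocallyUniformlyOn F f l U) (m : ℕ) :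
    TendstoLocallyUniformlyOn (fun i => iteratedDeriv m (F i)) (iteratedDeriv m f) l U ∧
      ∀ i, DifferentiableOn ℂ (iteratedDeriv m (F i)) U := by
  induction m with
  | zero => simpa using ⟨h, hF⟩
  | succ m ih =>
    obtain ⟨ih1, ih2⟩ := ih
    simp_rw [iteratedDeriv_succ]
    exact ⟨ih1.deriv (Eventually.of_forall ih2) hU, fun i => (ih2 i).deriv hU⟩

lemma tay_euler : tay (fun q ↦ ∏' n : ℕ, (1 - q ^ (n + 1))) = pentagonalSeries ℂ := by
  have hU : IsOpen (Metric.ball (0 : ℂ) 1) := Metric.isOpen_ball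
  have h0 : (0 : ℂ) ∈ Metric.ball (0 : ℂ) 1 := Metric.mem_ball_self one_pos
  have h1 := multipliableLocallyUniformlyOn_one_sub_pow.hasProdLocallyUniformlyOn
  have h2 : TendstoLocallyUniformlyOn (fun (s : Finset ℕ) (q : ℂ) => ∏ i ∈ s, (1 - q ^ (i + 1)))
      (fun q ↦ ∏' n : ℕ, (1 - q ^ (n + 1))) atTop (Metric.ball 0 1) := h1
  have hF : ∀ s : Finset ℕ, DifferentiableOn ℂ (fun q : ℂ => ∏ i ∈ s, (1 - q ^ (i + 1)))
      (Metric.ball 0 1) := by
    intro s
    fun_prop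
  ext m
  obtain ⟨h3, _⟩ := tendsto_iteratedDeriv hU hF h2 m
  have h4 := h3.tendsto_at h0
  have h5 : ∀ s : Finset ℕ, (↑m.factorial)⁻¹ *
      iteratedDeriv m (fun q : ℂ => ∏ i ∈ s, (1 - q ^ (i + 1))) 0 =
      coeff m (∏ i ∈ s, (1 - X ^ (i + 1) : ℂ⟦X⟧)) := by
    intro s
    rw [← tay_coeff]
    have e1 : (fun q : ℂ => ∏ i ∈ s, (1 - q ^ (i + 1))) =
        ∏ i ∈ s, ((1 : ℂ → ℂ) - (id : ℂ → ℂ) ^ (i + 1)) := by
      funext q
      rw [Finset.prod_apply]
      simp
    have ha : ∀ i : ℕ, AnalyticAt ℂ ((id : ℂ → ℂ) ^ (i + 1)) 0 := fun i => analyticAt_id.pow _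
    have h1a : AnalyticAt ℂ (1 : ℂ → ℂ) 0 := analyticAt_const
    rw [e1, tay_prod s fun i => h1a.sub (ha i)]
    congr 1
    refine Finset.prod_congr rfl fun i _ => ?_
    rw [tay_sub h1a (ha i), tay_one, tay_pow analyticAt_id, tay_id]
  have h6 : Tendsto (fun s : Finset ℕ => coeff m (∏ i ∈ s, (1 - X ^ (i + 1) : ℂ⟦X⟧))) atTop
      (𝓝 (coeff m (tay (fun q ↦ ∏' n : ℕ, (1 - q ^ (n + 1)))))) := by
    rw [tay_coeff]
    simp_rw [← h5]
    exact h4.const_mul _
  have h7 : Tendsto (fun s : Finset ℕ => coeff m (∏ i ∈ s, (1 - X ^ (i + 1) : ℂ⟦X⟧))) atTop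
      (𝓝 (coeff m (pentagonalSeries ℂ))) :=
    tendsto_nhds_of_eventually_eq (coeff_prod_one_sub_X_pow_eventually_eq ℂ m)
  exact tendsto_nhds_unique h6 h7

lemma map_pentagonalSeries {R S : Type*} [CommRing R] [CommRing S] (f : R →+* S) :
    PowerSeries.map f (pentagonalSeries R) = pentagonalSeries S := by
  ext n
  rw [coeff_map]
  by_cases h : n ∈ Set.range pentagonal
  · obtain ⟨k, rfl⟩ := h
    rw [coeff_pentagonalSeries_pentagonal, coeff_pentagonalSeries_pentagonal, map_intCast]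
  · rw [coeff_pentagonalSeries_eq_zero _ h, coeff_pentagonalSeries_eq_zero _ h, map_zero]

/-- A1. The q-expansion of the discriminant. -/
theorem qExpansion_discriminant :
    qExpansion 1 ModularForm.discriminant =
      PowerSeries.map (Int.castRingHom ℂ) (X * (pentagonalSeries ℤ) ^ 24) := by
  rw [map_mul, map_pow, map_X, map_pentagonalSeries]
  have h1 : qExpansion 1 ModularForm.discriminant =
      tay (cuspFunction 1 ModularForm.discriminant) := rfl
  have h0 : (0 : ℂ) ∈ Metric.ball (0 : ℂ) 1 := Metric.mem_ball_self one_pos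
  have h2 : cuspFunction 1 ModularForm.discriminant =ᶠ[𝓝 0]
      (id : ℂ → ℂ) * (fun q : ℂ ↦ ∏' n : ℕ, (1 - q ^ (n + 1))) ^ 24 := by
    filter_upwards [Metric.isOpen_ball.mem_nhds h0] with q hq
    rw [discriminant_cuspFunction_eqOn hq]
    simp only [Pi.mul_apply, id_eq, Pi.pow_apply]
    rw [(multipliable_one_sub_pow (by simpa using hq)).tprod_pow]
  have ha : AnalyticAt ℂ (fun q : ℂ ↦ ∏' n : ℕ, (1 - q ^ (n + 1))) 0 :=
    differentiableOn_tprod_one_sub_pow.analyticAt (Metric.isOpen_ball.mem_nhds h0)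
  rw [h1, tay_congr h2, tay_mul analyticAt_id (ha.pow 24), tay_id, tay_pow ha, tay_euler]

end Pool.Agent.helper12.PE
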