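import Mathlib

set_option autoImplicit false
open Finset UpperHalfPlane ModularForm
open scoped MatrixGroups Real Manifold

noncomputable section

namespace Pool.Agent.helper12.PE


/-- The extension of a form to the complex plane. -/
def ext {k : ℕ} (F : ModularForm 𝒮ℒ (k : ℤ)) : ℂ → ℂ := F ∘ ofComplex

lemma ext_apply {k : ℕ} (F : ModularForm 𝒮ℒ (k : ℤ)) (τ : ℍ) : ext F τ = F τ := by
  simp [ext]

lemma ext_mobius {k : ℕ} (F : ModularForm 𝒮ℒ (k : ℤ)) (a b c d : ℤ) (h : a * d - b * c = 1)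
    (w : ℂ) (hw : 0 < w.im) :
    ext F ((a * w + b) / (c * w + d)) = (c * w + d) ^ k * ext F w := by
  let γ : SL(2, ℤ) := ⟨!![a, b; c, d], by rw [Matrix.det_fin_two_of]; exact h⟩
  let τ : ℍ := ⟨w, hw⟩
  have hγ : Matrix.SpecialLinearGroup.mapGL ℝ γ ∈ 𝒮ℒ := ⟨γ, rfl⟩
  have h1 := SlashInvariantForm.slash_action_eqn'' F hγ τ
  have h2 : ((γ • τ : ℍ) : ℂ) = (a * w + b) / (c * w + d) := by
    rw [UpperHalfPlane.coe_specialLinearGroup_apply]
    simp [γ, τ]
  have h3 : denom (Matrix.SpecialLinearGroup.mapGL ℝ γ) τ = c * w + d := by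
    simp [denom, γ, τ]
  rw [h3] at h1
  rw [← h2, ext_apply, show w = ((τ : ℍ) : ℂ) from rfl, ext_apply]
  rw [zpow_natCast] at h1
  exact h1

lemma ext_add_nat {k : ℕ} (F : ModularForm 𝒮ℒ (k : ℤ)) (w : ℂ) (hw : 0 < w.im) (n : ℕ) :
    ext F (w + n) = ext F w := by
  have h := ext_mobius F 1 n 0 1 (by ring) w hw
  simpa using h

lemma ext_inv {k : ℕ} (F : ModularForm 𝒮ℒ (k : ℤ)) (w : ℂ) (hw : 0 < w.im) :
    ext F (-1 / w) = w ^ k * ext F w := by
  have h := ext_mobius F 0 (-1) 1 0 (by ring) w hw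
  simpa using h

/-- `p` times the Hecke operator. -/
def heckeC {k : ℕ} (p : ℕ) (F : ModularForm 𝒮ℒ (k : ℤ)) (z : ℂ) : ℂ :=
  p ^ k * ext F (p * z) + ∑ b ∈ range p, ext F ((z + b) / p)

lemma im_mul {p : ℕ} (hp : 0 < p) {z : ℂ} (hz : 0 < z.im) : 0 < ((p : ℂ) * z).im := by
  simp only [Complex.mul_im, Complex.natCast_re, Complex.natCast_im, zero_mul, add_zero]
  positivity

lemma im_div {p : ℕ} (hp : 0 < p) {z : ℂ} (hz : 0 < z.im) (b : ℕ) :
    0 < ((z + (b : ℂ)) / p).im := by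
  rw [Complex.div_natCast_im]
  simp only [Complex.add_im, Complex.natCast_im, add_zero]
  positivity

lemma heckeC_T {k p : ℕ} (hp : 0 < p) (F : ModularForm 𝒮ℒ (k : ℤ)) {z : ℂ} (hz : 0 < z.im) :
    heckeC p F (z + 1) = heckeC p F z := by
  unfold heckeC
  have hp0 : (p : ℂ) ≠ 0 := by exact_mod_cast hp.ne'
  congr 1
  · rw [mul_add, mul_one, ext_add_nat F _ (im_mul hp hz)]
  · have h1 : ∀ b : ℕ, ext F ((z + 1 + b) / p) = ext F ((z + (b + 1 : ℕ)) / p) := by
      intro b; congr 2; push_cast; ring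
    simp_rw [h1]
    have h2 := Finset.sum_range_succ' (fun b : ℕ => ext F ((z + (b : ℂ)) / p)) p
    rw [Finset.sum_range_succ] at h2
    have h3 : ext F ((z + (p : ℂ)) / p) = ext F ((z + ((0 : ℕ) : ℂ)) / p) := by
      have : (z + (p : ℂ)) / p = (z + ((0 : ℕ) : ℂ)) / p + (1 : ℕ) := by
        field_simp; push_cast; ring
      rw [this, ext_add_nat F _ (im_div hp hz 0)]
    rw [h3] at h2
    exact (add_right_cancel h2).symm

lemma heckeC_S {k p : ℕ} (hp : p.Prime) (F : ModularForm 𝒮ℒ (k : ℤ)) {z : ℂ} (hz : 0 < z.im) :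
    heckeC p F (-1 / z) = z ^ k * heckeC p F z := by
  have hp1 : 0 < p := hp.pos
  have hp0 : (p : ℂ) ≠ 0 := by exact_mod_cast hp1.ne'
  have hz0 : z ≠ 0 := by rintro rfl; simp at hz
  have : Fact p.Prime := ⟨hp⟩
  unfold heckeC
  rw [Finset.range_eq_Ico, Finset.sum_eq_sum_Ico_succ_bot hp1, Finset.sum_eq_sum_Ico_succ_bot hp1]
  have e1 : (p : ℂ) ^ k * ext F (p * (-1 / z)) = z ^ k * ext F ((z + ((0 : ℕ) : ℂ)) / p) := by
    have : (p : ℂ) * (-1 / z) = -1 / ((z + ((0 : ℕ) : ℂ)) / p) := by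
      push_cast; rw [add_zero]; field_simp
    rw [this, ext_inv F _ (im_div hp1 hz 0), ← mul_assoc, ← mul_pow]
    congr 2
    field_simp; push_cast; ring
  have e2 : ext F ((-1 / z + ((0 : ℕ) : ℂ)) / p) = z ^ k * ((p : ℂ) ^ k * ext F (p * z)) := by
    have : (-1 / z + ((0 : ℕ) : ℂ)) / p = -1 / (p * z) := by
      field_simp; push_cast; ring
    rw [this, ext_inv F _ (im_mul hp1 hz), mul_pow]; ring
  have e3 : ∑ b ∈ Finset.Ico (0 + 1) p, ext F ((-1 / z + (b : ℂ)) / p) =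
      z ^ k * ∑ b ∈ Finset.Ico (0 + 1) p, ext F ((z + (b : ℂ)) / p) := by
    rw [Finset.mul_sum]
    have hne : ∀ b ∈ Finset.Ico (0 + 1) p, ((b : ℕ) : ZMod p) ≠ 0 := by
      intro b hb h
      rw [Finset.mem_Ico] at hb
      rw [ZMod.natCast_eq_zero_iff] at h
      exact absurd (Nat.le_of_dvd (by omega) h) (by omega)
    have hmem : ∀ b ∈ Finset.Ico (0 + 1) p, (-(b : ZMod p)⁻¹).val ∈ Finset.Ico (0 + 1) p := by
      intro b hb
      rw [Finset.mem_Ico]
      refine ⟨?_, ZMod.val_lt _⟩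
      rw [zero_add, Nat.one_le_iff_ne_zero, Ne, ZMod.val_eq_zero, neg_eq_zero]
      exact inv_ne_zero (hne b hb)
    have hinv : ∀ b ∈ Finset.Ico (0 + 1) p, (-(((-(b : ZMod p)⁻¹).val : ℕ) : ZMod p)⁻¹).val = b := by
      intro b hb
      rw [ZMod.natCast_zmod_val, inv_neg, neg_neg, inv_inv, ZMod.val_natCast_of_lt]
      exact (Finset.mem_Ico.mp hb).2
    refine Finset.sum_nbij' (fun b => (-(b : ZMod p)⁻¹).val) (fun b => (-(b : ZMod p)⁻¹).val)
      hmem hmem hinv hinv ?_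
    intro b hb
    set b' := (-(b : ZMod p)⁻¹).val with hb'
    have hdvd : (p : ℤ) ∣ (b : ℤ) * b' + 1 := by
      rw [← ZMod.intCast_zmod_eq_zero_iff_dvd]
      push_cast
      rw [hb', ZMod.natCast_zmod_val, mul_neg, mul_inv_cancel₀ (hne b hb), neg_add_cancel]
    obtain ⟨e, he⟩ := hdvd
    have h := ext_mobius F b (-e) p (-b') (by linear_combination -he) ((z + b') / p)
      (im_div hp1 hz b')
    have he' : (b : ℂ) * b' + 1 = p * e := by exact_mod_cast he
    have h5 : ((p : ℤ) : ℂ) * ((z + b') / p) + ((-b' : ℤ) : ℂ) = z := by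
      push_cast; field_simp; ring
    have h6 : ((b : ℤ) : ℂ) * ((z + b') / p) + ((-e : ℤ) : ℂ) = (b * z - 1) / p := by
      push_cast
      field_simp
      linear_combination he'
    rw [h5, h6] at h
    rw [← h]
    congr 1
    field_simp
    ring
  rw [e1, e2, e3]
  ring

/-- The Hecke operator as a function on the upper half plane. -/
def heckeFun {k : ℕ} (p : ℕ) (F : ModularForm 𝒮ℒ (k : ℤ)) (τ : ℍ) : ℂ := heckeC p F τ

set_option backward.isDefEq.respectTransparency.types false in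
lemma heckeFun_T {k p : ℕ} (hp : p.Prime) (F : ModularForm 𝒮ℒ (k : ℤ)) :
    (heckeFun p F ∣[(k : ℤ)] ModularGroup.T) = heckeFun p F := by
  ext z
  rw [SL_slash_apply, denom, modular_T_smul, ModularGroup.T]
  simp only [heckeFun]
  have h := heckeC_T hp.pos F (z := z) z.im_pos
  simpa [add_comm] using h

set_option backward.isDefEq.respectTransparency.types false in
lemma heckeFun_S {k p : ℕ} (hp : p.Prime) (F : ModularForm 𝒮ℒ (k : ℤ)) :
    (heckeFun p F ∣[(k : ℤ)] ModularGroup.S) = heckeFun p F := by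
  ext z
  have h := heckeC_S hp F (z := z) z.im_pos
  rw [SL_slash_apply, UpperHalfPlane.modular_S_smul]
  have hz : (z : ℂ) ^ k ≠ 0 := pow_ne_zero _ (ne_zero z)
  have h2 : heckeC p F (-(z : ℂ))⁻¹ = (z : ℂ) ^ k * heckeC p F z := by
    rw [← h]; congr 1; rw [neg_div, one_div, inv_neg]
  simp only [heckeFun]
  have h3 : denom (ModularGroup.S : GL (Fin 2) ℝ) z = z := by simp [denom, ModularGroup.S]
  rw [h3, zpow_neg, zpow_natCast]
  change heckeC p F (-(z : ℂ))⁻¹ * ((z : ℂ) ^ k)⁻¹ = _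
  rw [h2]
  field_simp

lemma heckeFun_slash {k p : ℕ} (hp : p.Prime) (F : ModularForm 𝒮ℒ (k : ℤ)) (γ : SL(2, ℤ)) :
    (heckeFun p F ∣[(k : ℤ)] γ) = heckeFun p F :=
  SlashInvariantForm.slash_action_generators_SL2Z (heckeFun_S hp F) (heckeFun_T hp F) γ

lemma differentiableOn_ext {k : ℕ} (F : ModularForm 𝒮ℒ (k : ℤ)) :
    DifferentiableOn ℂ (ext F) {z | 0 < z.im} :=
  UpperHalfPlane.mdifferentiable_iff.mp (ModularFormClass.holo F)

lemma differentiableOn_heckeC {k p : ℕ} (hp : 0 < p) (F : ModularForm 𝒮ℒ (k : ℤ)) :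
    DifferentiableOn ℂ (heckeC p F) {z | 0 < z.im} := by
  unfold heckeC
  refine DifferentiableOn.add ?_ ?_
  · refine DifferentiableOn.const_mul ?_ _
    exact (differentiableOn_ext F).comp (by fun_prop) (fun z hz => im_mul hp hz)
  · refine DifferentiableOn.fun_sum fun b _ => ?_
    exact (differentiableOn_ext F).comp (by fun_prop) (fun z hz => im_div hp hz b)

lemma mdiff_heckeFun {k p : ℕ} (hp : 0 < p) (F : ModularForm 𝒮ℒ (k : ℤ)) :
    MDiff (heckeFun p F) := by
  rw [UpperHalfPlane.mdifferentiable_iff]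
  refine (differentiableOn_heckeC hp F).congr fun z hz => ?_
  simp [heckeFun, ofComplex_apply_of_im_pos hz]

lemma qParam_mul (p : ℕ) (z : ℂ) : Function.Periodic.qParam 1 (p * z) = Function.Periodic.qParam 1 z ^ p := by
  simp only [Function.Periodic.qParam]
  rw [← Complex.exp_nat_mul]
  congr 1
  ring

lemma hasSum_ext {k : ℕ} (F : ModularForm 𝒮ℒ (k : ℤ)) {w : ℂ} (hw : 0 < w.im) :
    HasSum (fun m => (qExpansion 1 F).coeff m * Function.Periodic.qParam 1 w ^ m) (ext F w) := by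
  have h := ModularForm.hasSum_qExpansion F one_pos one_mem_strictPeriods_SL ⟨w, hw⟩
  have h2 : ext F w = F ⟨w, hw⟩ := ext_apply F ⟨w, hw⟩
  rw [h2]
  exact h

/-- The coefficients of the Hecke operator. -/
def heckeCoeff (k p : ℕ) (a : ℕ → ℂ) (n : ℕ) : ℂ :=
  p * a (p * n) + (if p ∣ n then (p : ℂ) ^ k * a (n / p) else 0)

lemma mul_inj {p : ℕ} (hp : 0 < p) : Function.Injective (fun m : ℕ => p * m) :=
  fun _ _ h => Nat.eq_of_mul_eq_mul_left hp h

lemma qParam_div {p : ℕ} (hp : 0 < p) (z : ℂ) (b m : ℕ) :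
    Function.Periodic.qParam 1 ((z + b) / p) ^ m = Function.Periodic.qParam 1 (z / p) ^ m * (Complex.exp (2 * π * Complex.I / p) ^ m) ^ b := by
  have hpc : (p : ℂ) ≠ 0 := by exact_mod_cast hp.ne'
  simp only [Function.Periodic.qParam]
  rw [← Complex.exp_nat_mul, ← Complex.exp_nat_mul, ← Complex.exp_nat_mul, ← Complex.exp_nat_mul,
    ← Complex.exp_add]
  congr 1
  push_cast
  field_simp

lemma sum_root {p : ℕ} (hp : 0 < p) (m : ℕ) :
    ∑ b ∈ range p, (Complex.exp (2 * π * Complex.I / p) ^ m) ^ b = if p ∣ m then (p : ℂ) else 0 := by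
  have hprim := Complex.isPrimitiveRoot_exp p hp.ne'
  split_ifs with h
  · rw [(hprim.pow_eq_one_iff_dvd m).mpr h]
    simp
  · have h1 : Complex.exp (2 * π * Complex.I / p) ^ m ≠ 1 := fun h2 =>
      h ((hprim.pow_eq_one_iff_dvd m).mp h2)
    rw [geom_sum_eq h1, pow_right_comm, hprim.pow_eq_one, one_pow, sub_self, zero_div]

lemma hasSum_heckeC {k p : ℕ} (hp : p.Prime) (F : ModularForm 𝒮ℒ (k : ℤ)) {z : ℂ}
    (hz : 0 < z.im) :
    HasSum (fun n => heckeCoeff k p (fun m => (qExpansion 1 F).coeff m) n * Function.Periodic.qParam 1 z ^ n)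
      (heckeC p F z) := by
  set a : ℕ → ℂ := fun m => (qExpansion 1 F).coeff m with ha
  have hp0 := hp.pos
  have hpc : (p : ℂ) ≠ 0 := by exact_mod_cast hp0.ne'
  have hp2 : 1 < p := hp.one_lt
  -- first part
  have h1 : HasSum (fun n => (if p ∣ n then (p : ℂ) ^ k * a (n / p) else 0) * Function.Periodic.qParam 1 z ^ n)
      ((p : ℂ) ^ k * ext F (p * z)) := by
    have h := (hasSum_ext F (im_mul hp0 hz)).mul_left ((p : ℂ) ^ k)
    rw [← (mul_inj hp0).hasSum_iff]
    · have e : ((fun n => (if p ∣ n then (p : ℂ) ^ k * a (n / p) else 0) * Function.Periodic.qParam 1 z ^ n) ∘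
          fun m : ℕ => p * m) =
          fun i => (p : ℂ) ^ k * ((qExpansion 1 F).coeff i * Function.Periodic.qParam 1 (p * z) ^ i) := by
        funext m
        simp only [Function.comp_apply]
        rw [if_pos (Dvd.intro m rfl), Nat.mul_div_cancel_left _ hp0, qParam_mul, ← pow_mul,
          mul_assoc]
      rw [e]
      exact h
    · intro n hn
      rw [if_neg, zero_mul]
      rintro ⟨c, rfl⟩
      exact hn ⟨c, rfl⟩
  -- second part
  have h2 : HasSum (fun n => p * a (p * n) * Function.Periodic.qParam 1 z ^ n)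
      (∑ b ∈ range p, ext F ((z + b) / p)) := by
    have h3 : HasSum (fun m => ∑ b ∈ range p, a m * Function.Periodic.qParam 1 ((z + b) / p) ^ m)
        (∑ b ∈ range p, ext F ((z + b) / p)) :=
      hasSum_sum fun b _ => hasSum_ext F (im_div hp0 hz b)
    have h4 : ∀ m, ∑ b ∈ range p, a m * Function.Periodic.qParam 1 ((z + b) / p) ^ m =
        a m * Function.Periodic.qParam 1 (z / p) ^ m * (if p ∣ m then (p : ℂ) else 0) := by
      intro m
      rw [← sum_root hp0 m, Finset.mul_sum]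
      refine Finset.sum_congr rfl fun b _ => ?_
      rw [qParam_div hp0]; ring
    simp_rw [h4] at h3
    rw [← (mul_inj hp0).hasSum_iff] at h3
    · convert h3 using 1
      ext n
      simp only [Function.comp_apply]
      rw [if_pos (Dvd.intro n rfl)]
      have : Function.Periodic.qParam 1 (z / p) ^ (p * n) = Function.Periodic.qParam 1 z ^ n := by
        rw [pow_mul, ← qParam_mul, mul_div_cancel₀ _ hpc]
      rw [this]; ring
    · intro n hn
      rw [if_neg, mul_zero]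
      rintro ⟨c, rfl⟩
      exact hn ⟨c, rfl⟩
  have h3 := h2.add h1
  unfold heckeC
  rw [add_comm]
  convert h3 using 1
  ext n
  unfold heckeCoeff
  ring

/-- The Hecke operator as a modular form. -/
def heckeForm {k p : ℕ} (hp : p.Prime) (F : ModularForm 𝒮ℒ (k : ℤ)) : ModularForm 𝒮ℒ (k : ℤ) where
  toFun := heckeFun p F
  slash_action_eq' := by
    rintro _ ⟨γ, rfl⟩
    exact heckeFun_slash hp F γ
  holo' := mdiff_heckeFun hp.pos F
  bdd_at_cusps' {c} hc := by
    rw [Subgroup.IsArithmetic.isCusp_iff_isCusp_SL2Z] at hc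
    rw [OnePoint.isBoundedAt_iff_forall_SL2Z hc]
    intro γ _
    rw [heckeFun_slash hp F γ]
    exact isBoundedAtImInfty_of_hasSum_qExpansion one_pos (fun τ => hasSum_heckeC hp F τ.im_pos)

/-- A3. -/
theorem exists_hecke (k : ℕ) (p : ℕ) (hp : p.Prime) (F : ModularForm 𝒮ℒ (k : ℤ)) :
    ∃ G : ModularForm 𝒮ℒ (k : ℤ), ∀ n : ℕ,
      (qExpansion 1 G).coeff n = p * (qExpansion 1 F).coeff (p * n) +
        (if p ∣ n then (p : ℂ) ^ k * (qExpansion 1 F).coeff (n / p) else 0) := by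
  refine ⟨heckeForm hp F, fun n => ?_⟩
  have h := ModularFormClass.qExpansion_coeff_unique (f := heckeForm hp F) one_pos
    one_mem_strictPeriods_SL (fun τ => hasSum_heckeC hp F τ.im_pos) n
  rw [← h]
  rfl

end Pool.Agent.helper12.PE
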