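import Mathlib

set_option autoImplicit false
open Finset

namespace Pool.Agent.helper12.PE

/-- The indices `k` with `G * pentagonal k ≤ n`. -/
noncomputable def pentSet (G n : ℕ) : Finset ℤ :=
  (Finset.Icc (-(n : ℤ)) n).filter (fun k => G * pentagonal k ≤ n)

/-- The coefficient of `X ^ n` in `(∑ r j X ^ j) * ∑_k X ^ (G * pentagonal k)`. -/
noncomputable def RR (r : ℕ → ZMod 2) (G n : ℕ) : ZMod 2 := ∑ k ∈ pentSet G n, r (n - G * pentagonal k)

lemma abs_le_pentagonal (k : ℤ) : |k| ≤ (pentagonal k : ℤ) := by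
  have h := two_mul_natCast_pentagonal k
  rcases lt_trichotomy k 0 with hk | hk | hk
  · rw [abs_of_neg hk]; nlinarith
  · subst hk; simp
  · rw [abs_of_pos hk]; nlinarith

lemma mem_pentSet {G n : ℕ} (hG : 1 ≤ G) (k : ℤ) : k ∈ pentSet G n ↔ G * pentagonal k ≤ n := by
  unfold pentSet
  rw [mem_filter, and_iff_right_iff_imp, mem_Icc, ← abs_le]
  intro h
  have h1 := abs_le_pentagonal k
  have h2 : pentagonal k ≤ n := le_trans (Nat.le_mul_of_pos_left _ hG) h
  have h3 : (pentagonal k : ℤ) ≤ n := by exact_mod_cast h2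
  linarith

lemma sq_pentagonal (k : ℤ) : 24 * (pentagonal k : ℤ) + 1 = (6 * k - 1) ^ 2 := by
  have h := two_mul_natCast_pentagonal k
  linear_combination 12 * h

lemma mem_pentSet' {G n : ℕ} (hG : 1 ≤ G) (k : ℤ) :
    k ∈ pentSet G n ↔ (G : ℤ) * (6 * k - 1) ^ 2 ≤ 24 * n + G := by
  rw [mem_pentSet hG, ← sq_pentagonal]
  constructor
  · intro h
    have : (G : ℤ) * pentagonal k ≤ n := by exact_mod_cast h
    linarith
  · intro h
    have : (G : ℤ) * pentagonal k ≤ n := by linarith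
    exact_mod_cast this

section
variable (r : ℕ → ZMod 2) (t : ℕ)

/-- The extension of a periodic function to the integers. -/
def rz (z : ℤ) : ZMod 2 := r (z % t).toNat

variable {r t}

lemma r_mod (hr : ∀ n, r (n + t) = r n) (n : ℕ) : r (n % t) = r n := by
  have h : ∀ k m, r (m + t * k) = r m := by
    intro k
    induction k with
    | zero => simp
    | succ k ih => intro m; rw [mul_add, mul_one, ← add_assoc, hr, ih]
  conv_rhs => rw [← Nat.mod_add_div n t]
  rw [h]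

lemma rz_natCast (hr : ∀ n, r (n + t) = r n) (n : ℕ) : rz r t n = r n := by
  unfold rz
  rw [← Int.natCast_mod, Int.toNat_natCast, r_mod hr]

lemma rz_congr {a b : ℤ} (h : a ≡ b [ZMOD t]) : rz r t a = rz r t b := by
  unfold rz
  rw [h]

end

lemma pent_shift (k : ℤ) (t i : ℤ) :
    ∃ c : ℤ, (pentagonal (k + 2 * t * i) : ℤ) = pentagonal k + t * c := by
  refine ⟨6 * i * k + 6 * t * i ^ 2 - i, ?_⟩
  have h1 := two_mul_natCast_pentagonal (k + 2 * t * i)
  have h2 := two_mul_natCast_pentagonal k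
  have : 2 * ((pentagonal (k + 2 * t * i) : ℤ)) = 2 * (pentagonal k + t * (6 * i * k + 6 * t * i ^ 2 - i)) := by
    linear_combination h1 - h2
  linarith

lemma RR_eq {r : ℕ → ZMod 2} {t : ℕ} (hr : ∀ n, r (n + t) = r n) {G n : ℕ} (hG : 1 ≤ G) :
    RR r G n = ∑ k ∈ pentSet G n, rz r t ((n : ℤ) - G * pentagonal k) := by
  unfold RR
  refine sum_congr rfl fun k hk => ?_
  rw [mem_pentSet hG] at hk
  rw [← rz_natCast hr, Nat.cast_sub hk]
  push_cast
  rfl

lemma rz_shift {r : ℕ → ZMod 2} {t : ℕ} (G n : ℕ) (k i : ℤ) :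
    rz r t ((n : ℤ) - G * pentagonal (k + 2 * t * i)) = rz r t ((n : ℤ) - G * pentagonal k) := by
  apply rz_congr
  obtain ⟨c, hc⟩ := pent_shift k t i
  rw [hc]
  apply Int.ModEq.symm
  rw [Int.modEq_iff_dvd]
  exact ⟨-(G * c), by ring⟩

lemma sum_Ioc_zero {r : ℕ → ZMod 2} {t : ℕ} (G n i : ℕ) :
    ∑ k ∈ Finset.Ioc (-(4 * t * i : ℤ)) (4 * t * i), rz r t ((n : ℤ) - G * pentagonal k) = 0 := by
  set A : ℤ := 4 * t * i with hA
  have hA0 : 0 ≤ A := by positivity
  have hU : Finset.Ioc (-A) A = Finset.Ioc (-A) 0 ∪ Finset.Ioc 0 A := by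
    ext x; simp only [mem_Ioc, mem_union]; omega
  have hD : Disjoint (Finset.Ioc (-A) 0) (Finset.Ioc 0 A) := by
    rw [Finset.disjoint_left]; intro x; simp only [mem_Ioc]; omega
  rw [hU, sum_union hD]
  have h1 : ∑ k ∈ Finset.Ioc (-A) 0, rz r t ((n : ℤ) - G * pentagonal k) =
      ∑ k ∈ Finset.Ioc 0 A, rz r t ((n : ℤ) - G * pentagonal k) := by
    refine sum_nbij' (fun x => x + A) (fun x => x - A) ?_ ?_ ?_ ?_ ?_
    · intro x; simp only [mem_Ioc]; omega
    · intro x; simp only [mem_Ioc]; omega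
    · intro x _; ring
    · intro x _; ring
    · intro x _
      have : x + A = x + 2 * t * (2 * i : ℤ) := by rw [hA]; ring
      rw [this, rz_shift]
  rw [h1]
  exact CharTwo.add_self_eq_zero _

lemma pentSet_region0 {G n t i : ℕ} (hG : 1 ≤ G)
    (h1 : (24 * t * i - 1) ^ 2 * G ≤ 24 * n + G) (h2 : 24 * n + G < (24 * t * i + 1) ^ 2 * G)
    (hti : 1 ≤ t * i) :
    pentSet G n = Finset.Ioc (-(4 * t * i : ℤ)) (4 * t * i) := by
  have hG0 : (0 : ℤ) < G := by exact_mod_cast hG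
  have h1' : ((24 * (t * i) : ℤ) - 1) ^ 2 * G ≤ 24 * n + G := by
    have := h1
    zify [show 1 ≤ 24 * t * i by nlinarith] at this
    linarith [this, show ((24 * (t * i) : ℤ) - 1) ^ 2 * G = (24 * t * i - 1) ^ 2 * G by ring]
  have h2' : (24 * n + G : ℤ) < ((24 * (t * i) : ℤ) + 1) ^ 2 * G := by
    have := h2
    zify at this
    linarith [this, show ((24 * (t * i) : ℤ) + 1) ^ 2 * G = (24 * t * i + 1) ^ 2 * G by ring]
  have hti' : (1 : ℤ) ≤ t * i := by exact_mod_cast hti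
  have e4 : (4 * t * i : ℤ) = 4 * (t * i) := by ring
  ext k
  rw [mem_pentSet' hG, mem_Ioc, e4]
  set T : ℤ := t * i with hT
  constructor
  · intro h
    have h3 : (6 * k - 1) ^ 2 < (24 * T + 1) ^ 2 := by
      by_contra hc
      push Not at hc
      have := mul_le_mul_of_nonneg_right hc hG0.le
      linarith
    have h4 : |6 * k - 1| < |24 * T + 1| := sq_lt_sq.mp h3
    rw [abs_of_pos (by linarith : 0 < 24 * T + 1), abs_lt] at h4
    omega
  · intro h
    have h3 : |6 * k - 1| ≤ |24 * T - 1| := by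
      rw [abs_of_pos (by linarith : 0 < 24 * T - 1), abs_le]
      omega
    have h4 : (6 * k - 1) ^ 2 ≤ (24 * T - 1) ^ 2 := sq_le_sq.mpr h3
    have := mul_le_mul_of_nonneg_right h4 hG0.le
    linarith

lemma pentSet_region1 {G n t i : ℕ} (hG : 1 ≤ G)
    (h1 : (24 * t * i + 1) ^ 2 * G ≤ 24 * n + G) (h2 : 24 * n + G < (24 * t * i + 5) ^ 2 * G) :
    pentSet G n = insert (-(4 * t * i : ℤ)) (Finset.Ioc (-(4 * t * i : ℤ)) (4 * t * i)) := by
  have hG0 : (0 : ℤ) < G := by exact_mod_cast hG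
  have h1' : ((24 * (t * i) : ℤ) + 1) ^ 2 * G ≤ 24 * n + G := by
    have := h1
    zify at this
    linarith [this, show ((24 * (t * i) : ℤ) + 1) ^ 2 * G = (24 * t * i + 1) ^ 2 * G by ring]
  have h2' : (24 * n + G : ℤ) < ((24 * (t * i) : ℤ) + 5) ^ 2 * G := by
    have := h2
    zify at this
    linarith [this, show ((24 * (t * i) : ℤ) + 5) ^ 2 * G = (24 * t * i + 5) ^ 2 * G by ring]
  have hti' : (0 : ℤ) ≤ t * i := by positivity
  have e4 : (4 * t * i : ℤ) = 4 * (t * i) := by ring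
  ext k
  rw [mem_pentSet' hG, mem_insert, mem_Ioc, e4]
  set T : ℤ := t * i with hT
  constructor
  · intro h
    have h3 : (6 * k - 1) ^ 2 < (24 * T + 5) ^ 2 := by
      by_contra hc
      push Not at hc
      have := mul_le_mul_of_nonneg_right hc hG0.le
      linarith
    have h4 : |6 * k - 1| < |24 * T + 5| := sq_lt_sq.mp h3
    rw [abs_of_pos (by linarith : 0 < 24 * T + 5), abs_lt] at h4
    omega
  · intro h
    have h3 : |6 * k - 1| ≤ |24 * T + 1| := by
      rw [abs_of_pos (by linarith : 0 < 24 * T + 1), abs_le]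
      omega
    have h4 : (6 * k - 1) ^ 2 ≤ (24 * T + 1) ^ 2 := sq_le_sq.mpr h3
    have := mul_le_mul_of_nonneg_right h4 hG0.le
    linarith

/-- Before the jump the coefficient is zero. -/
theorem RR_region0 {r : ℕ → ZMod 2} {t : ℕ} (hr : ∀ n, r (n + t) = r n) {G n i : ℕ} (hG : 1 ≤ G)
    (hti : 1 ≤ t * i)
    (h1 : (24 * t * i - 1) ^ 2 * G ≤ 24 * n + G) (h2 : 24 * n + G < (24 * t * i + 1) ^ 2 * G) :
    RR r G n = 0 := by
  rw [RR_eq hr hG, pentSet_region0 hG h1 h2 hti, sum_Ioc_zero]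

/-- After the jump the coefficient is `r n`. -/
theorem RR_region1 {r : ℕ → ZMod 2} {t : ℕ} (hr : ∀ n, r (n + t) = r n) {G n i : ℕ} (hG : 1 ≤ G)
    (h1 : (24 * t * i + 1) ^ 2 * G ≤ 24 * n + G) (h2 : 24 * n + G < (24 * t * i + 5) ^ 2 * G) :
    RR r G n = r n := by
  rw [RR_eq hr hG, pentSet_region1 hG h1 h2, sum_insert (by simp), sum_Ioc_zero, add_zero]
  have h := rz_shift (r := r) (t := t) G n 0 (-(2 * i : ℤ))
  have e : (0 : ℤ) + 2 * t * (-(2 * i : ℤ)) = -(4 * t * i) := by ring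
  rw [e] at h
  rw [h]
  have h0 : pentagonal 0 = 0 := by decide
  rw [h0]
  simp [rz_natCast hr]

end Pool.Agent.helper12.PE
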