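import Mathlib
import Pool.Agent.helper81.PMGauss
import Pool.Agent.helper12.PE.Jump

set_option autoImplicit false
open PowerSeries Finset
open Pool.Agent.helper81 (EE PP PP_mul_EE)

namespace Pool.Agent.helper12.PE

/-- The series `Δ = X * E^24` over `ZMod 2`. -/
noncomputable def DD : (ZMod 2)⟦X⟧ := X * EE ^ 24

lemma pow_eq_expand (F : (ZMod 2)⟦X⟧) (n : ℕ) :
    F ^ (2 ^ n) = PowerSeries.expand (2 ^ n) (pow_ne_zero n (by norm_num)) F := by
  have h := MvPowerSeries.map_iterateFrobenius_expand (R := ZMod 2) 2 (by norm_num) F n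
  have h2 : iterateFrobenius (ZMod 2) 2 n = RingHom.id _ := by
    ext x
    simp only [iterateFrobenius_def, RingHom.id_apply]
    exact ZMod.pow_card_pow x
  rw [h2] at h
  rw [← h]
  exact congrFun (congrArg DFunLike.coe (MvPowerSeries.map_id (σ := Unit) (R := ZMod 2))) _

lemma coeff_EE_pentagonal (k : ℤ) : coeff (pentagonal k) EE = 1 := by
  rw [coeff_pentagonalSeries_pentagonal]
  rcases Int.even_or_odd k with hk | hk
  · rw [Int.negOnePow_even _ hk]; simp
  · rw [Int.negOnePow_odd _ hk]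
    decide

lemma coeff_mul_expand (A : (ZMod 2)⟦X⟧) {G : ℕ} (hG : G ≠ 0) (n : ℕ) :
    coeff n (A * PowerSeries.expand G hG EE) =
      ∑ k ∈ pentSet G n, coeff (n - G * pentagonal k) A := by
  classical
  have hG1 : 1 ≤ G := Nat.one_le_iff_ne_zero.mpr hG
  rw [coeff_mul]
  have hinj : Set.InjOn (fun k : ℤ => (n - G * pentagonal k, G * pentagonal k))
      (pentSet G n : Set ℤ) := by
    intro x _ y _ h
    have h2 : G * pentagonal x = G * pentagonal y := congrArg Prod.snd h
    exact pentagonal_injective (Nat.eq_of_mul_eq_mul_left hG1 h2)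
  rw [← Finset.sum_subset (s₁ := (pentSet G n).image
    (fun k : ℤ => (n - G * pentagonal k, G * pentagonal k)))]
  · rw [Finset.sum_image hinj]
    refine sum_congr rfl fun k _ => ?_
    simp only
    rw [coeff_expand_mul, coeff_EE_pentagonal, mul_one]
  · intro x hx
    rw [mem_image] at hx
    obtain ⟨k, hk, rfl⟩ := hx
    rw [mem_pentSet hG1] at hk
    rw [HasAntidiagonal.mem_antidiagonal]
    exact Nat.sub_add_cancel hk
  · intro x hx hx2
    rw [HasAntidiagonal.mem_antidiagonal] at hx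
    by_cases hd : G ∣ x.2
    · obtain ⟨c, hc⟩ := hd
      rw [hc, coeff_expand_mul]
      by_cases hr : c ∈ Set.range pentagonal
      · exfalso
        obtain ⟨k, rfl⟩ := hr
        apply hx2
        rw [mem_image]
        refine ⟨k, ?_, ?_⟩
        · rw [mem_pentSet hG1]; omega
        · ext
          · simp only; omega
          · simp only; omega
      · rw [coeff_pentagonalSeries_eq_zero _ hr, mul_zero]
    · rw [coeff_expand_of_not_dvd _ _ _ hd, mul_zero]

lemma coeff_EE_pow (m n : ℕ) : coeff n (EE ^ (4 ^ m - 1)) =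
    ∑ k ∈ pentSet (4 ^ m) n, coeff (n - 4 ^ m * pentagonal k) PP := by
  have h4 : (4 : ℕ) ^ m = 2 ^ (2 * m) := by rw [pow_mul]; norm_num
  have h1 : EE ^ (4 ^ m - 1) = PP * EE ^ (4 ^ m) := by
    obtain ⟨g, hg⟩ : ∃ g, 4 ^ m = g + 1 := ⟨4 ^ m - 1, by
      have : 0 < 4 ^ m := by positivity
      omega⟩
    rw [hg, Nat.add_sub_cancel, pow_succ, mul_comm (EE ^ g), ← mul_assoc, PP_mul_EE, one_mul]
  rw [h1, h4, pow_eq_expand, coeff_mul_expand]

/-- The error at `n`. -/
noncomputable def err (r : ℕ → ZMod 2) (m n : ℕ) : ZMod 2 :=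
  coeff n (EE ^ (4 ^ m - 1)) + RR r (4 ^ m) n

lemma exists_of_err_ne_zero {r : ℕ → ZMod 2} {m n : ℕ} (h : err r m n ≠ 0) :
    ∃ k ∈ pentSet (4 ^ m) n,
      (Fintype.card (Nat.Partition (n - 4 ^ m * pentagonal k)) : ZMod 2) ≠
        r (n - 4 ^ m * pentagonal k) := by
  unfold err RR at h
  rw [coeff_EE_pow, ← sum_add_distrib] at h
  obtain ⟨k, hk, hk2⟩ := exists_ne_zero_of_sum_ne_zero h
  refine ⟨k, hk, ?_⟩
  intro he
  apply hk2
  unfold PP
  rw [coeff_mk, he, CharTwo.add_self_eq_zero]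

lemma sq_le_pentagonal (k : ℤ) : k ^ 2 ≤ (pentagonal k : ℤ) := by
  have h := two_mul_natCast_pentagonal k
  have hk : k ≤ k ^ 2 := by
    rcases le_or_gt k 0 with h0 | h0
    · nlinarith [sq_nonneg k]
    · nlinarith
  nlinarith

lemma card_pentSet_le {G : ℕ} (hG : 1 ≤ G) (X : ℕ) :
    (pentSet G X).card ≤ 2 * Nat.sqrt (X / G) + 1 := by
  have hsub : pentSet G X ⊆ Finset.Icc (-(Nat.sqrt (X / G) : ℤ)) (Nat.sqrt (X / G)) := by
    intro k hk
    rw [mem_pentSet hG] at hk
    rw [mem_Icc, ← abs_le]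
    have h1 : pentagonal k ≤ X / G := by
      rw [Nat.le_div_iff_mul_le hG, mul_comm]; exact hk
    have h2 := sq_le_pentagonal k
    have h3 : k.natAbs ^ 2 ≤ X / G := by
      have : ((k.natAbs ^ 2 : ℕ) : ℤ) ≤ pentagonal k := by
        push_cast; rw [sq_abs]; exact h2
      exact le_trans (by exact_mod_cast this) h1
    have h4 : k.natAbs ≤ Nat.sqrt (X / G) := by
      rw [Nat.le_sqrt']; exact h3
    have : (k.natAbs : ℤ) ≤ Nat.sqrt (X / G) := by exact_mod_cast h4
    rwa [Int.natCast_natAbs] at this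
  calc (pentSet G X).card ≤ _ := card_le_card hsub
    _ = 2 * Nat.sqrt (X / G) + 1 := by
      rw [Int.card_Icc]; omega

open Classical in
/-- The number of errors up to `X` is bounded by the number of `n ≤ X` at which `p(n)` and `r(n)`
differ modulo 2, times the number of terms of `E(X ^ (4 ^ m))`. -/
theorem err_card_le (r : ℕ → ZMod 2) (m i a X : ℕ) (hi : 2 ^ i ∣ 4 ^ m) :
    ((range (X + 1)).filter (fun n => n % 2 ^ i = a % 2 ^ i ∧ err r m n ≠ 0)).card ≤
      ((range (X + 1)).filter (fun n => n % 2 ^ i = a % 2 ^ i ∧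
        (Fintype.card (Nat.Partition n) : ZMod 2) ≠ r n)).card *
      (2 * Nat.sqrt (X / 4 ^ m) + 1) := by
  set B := (range (X + 1)).filter (fun n => n % 2 ^ i = a % 2 ^ i ∧
        (Fintype.card (Nat.Partition n) : ZMod 2) ≠ r n) with hB
  have hG : 1 ≤ 4 ^ m := Nat.one_le_pow _ _ (by norm_num)
  have hsub : (range (X + 1)).filter (fun n => n % 2 ^ i = a % 2 ^ i ∧ err r m n ≠ 0) ⊆
      (B ×ˢ pentSet (4 ^ m) X).image (fun e : ℕ × ℤ => e.1 + 4 ^ m * pentagonal e.2) := by
    intro n hn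
    rw [mem_filter, mem_range] at hn
    obtain ⟨hnX, hna, hne⟩ := hn
    obtain ⟨k, hk, hk2⟩ := exists_of_err_ne_zero hne
    rw [mem_pentSet hG] at hk
    rw [mem_image]
    refine ⟨(n - 4 ^ m * pentagonal k, k), ?_, ?_⟩
    · rw [mem_product]
      refine ⟨?_, ?_⟩
      · rw [hB, mem_filter, mem_range]
        refine ⟨by simp only; omega, ?_, hk2⟩
        rw [← hna]
        obtain ⟨c, hc⟩ := hi
        have : n - 4 ^ m * pentagonal k + 2 ^ i * (c * pentagonal k) = n := by
          rw [← mul_assoc, ← hc]; exact Nat.sub_add_cancel hk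
        conv_rhs => rw [← this, Nat.add_mul_mod_self_left]
      · rw [mem_pentSet hG]
        simp only
        omega
    · simp only
      exact Nat.sub_add_cancel hk
  calc _ ≤ ((B ×ˢ pentSet (4 ^ m) X).image
        (fun e : ℕ × ℤ => e.1 + 4 ^ m * pentagonal e.2)).card := card_le_card hsub
    _ ≤ (B ×ˢ pentSet (4 ^ m) X).card := card_image_le
    _ = B.card * (pentSet (4 ^ m) X).card := card_product _ _
    _ ≤ _ := Nat.mul_le_mul_left _ (card_pentSet_le hG X)

/-- The coefficients of `Δ ^ j`, `3 j + 1 = 4 ^ m`. -/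
lemma coeff_DD_pow {m j : ℕ} (hj : 3 * j + 1 = 4 ^ m) (n : ℕ) :
    coeff (8 * n + j) (DD ^ j) = coeff n (EE ^ (4 ^ m - 1)) := by
  have h1 : DD ^ j = X ^ j * PowerSeries.expand 8 (by norm_num) (EE ^ (4 ^ m - 1)) := by
    unfold DD
    rw [mul_pow, ← hj, Nat.add_sub_cancel]
    congr 1
    have h := pow_eq_expand (EE ^ (3 * j)) 3
    have h8 : (2 : ℕ) ^ 3 = 8 := by norm_num
    rw [← pow_mul, show 24 * j = 3 * j * 2 ^ 3 by ring, pow_mul, h]
    rfl
  rw [h1, coeff_X_pow_mul, coeff_expand_mul]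

end Pool.Agent.helper12.PE
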