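import Mathlib
import Pool.Agent.helper12.PE.QDelta
import Pool.Agent.helper12.PE.Err

set_option autoImplicit false
open Finset UpperHalfPlane ModularForm PowerSeries
open scoped MatrixGroups Real ArithmeticFunction.sigma
open Pool.Agent.helper81 (EE)

noncomputable section

namespace Pool.Agent.helper12.PE

/-- The integral expansion of `E₄`. -/
def eps : ℤ⟦X⟧ := .mk fun m => if m = 0 then 1 else 240 * (σ 3 m : ℤ)

lemma qExpansion_E4 : qExpansion 1 (E (k := 4) (by norm_num)) =
    PowerSeries.map (Int.castRingHom ℂ) eps := by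
  ext m
  rw [EisensteinSeries.E_qExpansion_coeff _ ⟨2, rfl⟩, coeff_map, eps, coeff_mk]
  split_ifs with h
  · simp
  · rw [show bernoulli 4 = -1 / 30 by decide +kernel]
    push_cast
    norm_num

lemma map_eps : PowerSeries.map (Int.castRingHom (ZMod 2)) eps = 1 := by
  ext m
  rw [coeff_map, eps, coeff_mk, coeff_one]
  split_ifs with h
  · simp
  · have h240 : ((240 : ℤ) : ZMod 2) = 0 := by decide
    simp only [eq_intCast, Int.cast_mul]
    rw [h240, zero_mul]

lemma map_disc : PowerSeries.map (Int.castRingHom (ZMod 2)) (X * (pentagonalSeries ℤ) ^ 24) = DD := by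
  rw [map_mul, map_pow, map_X, map_pentagonalSeries]
  rfl

lemma map_injective : Function.Injective (PowerSeries.map (Int.castRingHom ℂ)) := by
  intro a b h
  ext n
  have := congrArg (coeff n) h
  rw [coeff_map, coeff_map, eq_intCast, eq_intCast] at this
  exact_mod_cast this

lemma constantCoeff_pentagonalSeries (R : Type*) [CommRing R] :
    constantCoeff (pentagonalSeries R) = 1 := by
  have h := coeff_pentagonalSeries_pentagonal R 0
  have h0 : pentagonal 0 = 0 := by decide
  rw [h0, coeff_zero_eq_constantCoeff] at h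
  rw [h]; simp

/-- Reduction mod 2 of an integral form of weight `12 j`. -/
theorem integral_form_mod_two (j : ℕ) (F : ModularForm 𝒮ℒ ((12 * j : ℕ) : ℤ)) (φ : ℤ⟦X⟧)
    (hφ : qExpansion 1 F = PowerSeries.map (Int.castRingHom ℂ) φ) :
    PowerSeries.map (Int.castRingHom (ZMod 2)) φ ∈
      Submodule.span (ZMod 2) (Set.range fun i : Fin (j + 1) => DD ^ (i : ℕ)) := by
  induction j generalizing φ with
  | zero =>
    let F' : ModularForm 𝒮ℒ 0 := ModularForm.mcast (by simp) F
    obtain ⟨c, hc⟩ := ModularFormClass.levelOne_weight_zero_const F'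
    have h1 : (F : ℍ → ℂ) = c • (1 : ℍ → ℂ) := by
      have : (F : ℍ → ℂ) = F' := rfl
      rw [this, hc]; ext; simp
    have h2 : qExpansion 1 (c • (1 : ℍ → ℂ)) = c • (1 : ℂ⟦X⟧) := by
      have := ModularForm.qExpansion_smul (h := 1) one_pos one_mem_strictPeriods_SL c
        (1 : ModularForm 𝒮ℒ 0)
      rw [ModularForm.qExpansion_one] at this
      exact this
    rw [h1, h2] at hφ
    have h3 : φ = C (coeff 0 φ) := by
      ext n
      rw [coeff_C]
      split_ifs with hn
      · rw [hn]
      · have := congrArg (coeff n) hφ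
        rw [coeff_map, map_smul, coeff_one, if_neg hn, smul_zero, eq_intCast] at this
        exact_mod_cast this.symm
    rw [h3, map_C]
    have h4 : (C ((Int.castRingHom (ZMod 2)) (coeff 0 φ)) : (ZMod 2)⟦X⟧) =
        ((Int.castRingHom (ZMod 2)) (coeff 0 φ)) • DD ^ 0 := by
      rw [pow_zero, smul_eq_C_mul, mul_one]
    rw [h4]
    exact Submodule.smul_mem _ _ (Submodule.subset_span ⟨0, rfl⟩)
  | succ j ih =>
    set a0 : ℤ := coeff 0 φ with ha0
    let E' : ModularForm 𝒮ℒ ((12 * (j + 1) : ℕ) : ℤ) :=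
      ModularForm.mcast (by push_cast; ring) ((E (k := 4) (by norm_num)).pow (3 * (j + 1)))
    have hE' : qExpansion 1 E' = PowerSeries.map (Int.castRingHom ℂ) (eps ^ (3 * (j + 1))) := by
      have : qExpansion 1 E' = qExpansion 1 ((E (k := 4) (by norm_num)).pow (3 * (j + 1))) := rfl
      rw [this, ModularForm.qExpansion_pow one_pos one_mem_strictPeriods_SL, qExpansion_E4, map_pow]
    let H : ModularForm 𝒮ℒ ((12 * (j + 1) : ℕ) : ℤ) := F - (a0 : ℂ) • E'
    set ψ : ℤ⟦X⟧ := φ - C a0 * eps ^ (3 * (j + 1)) with hψ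
    have hH : qExpansion 1 H = PowerSeries.map (Int.castRingHom ℂ) ψ := by
      have h1 : (H : ℍ → ℂ) = F - ((a0 : ℂ) • E' : ModularForm 𝒮ℒ ((12 * (j + 1) : ℕ) : ℤ)) := rfl
      rw [h1, ModularForm.qExpansion_sub one_pos one_mem_strictPeriods_SL]
      have h2 : (((a0 : ℂ) • E' : ModularForm 𝒮ℒ ((12 * (j + 1) : ℕ) : ℤ)) : ℍ → ℂ) =
        (a0 : ℂ) • (E' : ℍ → ℂ) := rfl
      rw [h2, ModularForm.qExpansion_smul one_pos one_mem_strictPeriods_SL, hφ, hE', hψ, map_sub,
        map_mul, map_C, smul_eq_C_mul]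
      simp
    have hψ0 : constantCoeff ψ = 0 := by
      have he : constantCoeff eps = 1 := by
        rw [← coeff_zero_eq_constantCoeff, eps, coeff_mk, if_pos rfl]
      rw [hψ, map_sub, map_mul, map_pow, he, one_pow, mul_one, ← coeff_zero_eq_constantCoeff]
      simp [ha0]
    obtain ⟨ψ', hψ'⟩ := X_dvd_iff.mpr hψ0
    have hcusp : (qExpansion 1 H).coeff 0 = 0 := by
      rw [hH, coeff_map, coeff_zero_eq_constantCoeff, hψ0, map_zero]
    have hmul := ModularForm.qExpansion_eq_qExpansion_discriminant_mul H hcusp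
    set H' := CuspForm.discriminantEquiv (toCuspForm H hcusp) with hH'
    have hU : IsUnit ((pentagonalSeries ℤ) ^ 24) := by
      rw [isUnit_iff_constantCoeff, map_pow, constantCoeff_pentagonalSeries]; simp
    obtain ⟨V, hV⟩ := hU.exists_right_inv
    set χ : ℤ⟦X⟧ := ψ' * V with hχ
    have hψχ : ψ = X * (pentagonalSeries ℤ) ^ 24 * χ := by
      rw [hψ', hχ]; linear_combination (-X * ψ') * hV
    have hqH' : qExpansion 1 H' = PowerSeries.map (Int.castRingHom ℂ) χ := by
      rw [hH, qExpansion_discriminant, hψχ, map_mul] at hmul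
      have hne : PowerSeries.map (Int.castRingHom ℂ) (X * (pentagonalSeries ℤ) ^ 24) ≠ 0 := by
        intro h0
        have h1 : (X * (pentagonalSeries ℤ) ^ 24 : ℤ⟦X⟧) = 0 := map_injective (by rw [h0, map_zero])
        rcases mul_eq_zero.mp h1 with h2 | h2
        · exact X_ne_zero h2
        · exact hU.ne_zero h2
      exact (mul_left_cancel₀ hne hmul).symm
    have hw : (((12 * (j + 1) : ℕ) : ℤ) - 12) = ((12 * j : ℕ) : ℤ) := by push_cast; ring
    have hih := ih (ModularForm.mcast hw H') χ (by
      have : qExpansion 1 (ModularForm.mcast hw H') = qExpansion 1 H' := rfl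
      rw [this, hqH'])
    have hφψ : φ = C a0 * eps ^ (3 * (j + 1)) + X * (pentagonalSeries ℤ) ^ 24 * χ := by
      rw [← hψχ, hψ]; ring
    rw [hφψ, map_add, map_mul, map_mul, map_disc, map_pow, map_eps, one_pow, mul_one, map_C]
    have hC : (C ((Int.castRingHom (ZMod 2)) a0) : (ZMod 2)⟦X⟧) =
        ((Int.castRingHom (ZMod 2)) a0) • DD ^ 0 := by
      rw [pow_zero, smul_eq_C_mul, mul_one]
    rw [hC]
    refine Submodule.add_mem _ (Submodule.smul_mem _ _ (Submodule.subset_span ⟨0, rfl⟩)) ?_
    have hmap : ∀ x ∈ Submodule.span (ZMod 2) (Set.range fun i : Fin (j + 1) => DD ^ (i : ℕ)),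
        DD * x ∈ Submodule.span (ZMod 2) (Set.range fun i : Fin (j + 1 + 1) => DD ^ (i : ℕ)) := by
      intro x hx
      induction hx using Submodule.span_induction with
      | mem x hx =>
        obtain ⟨i, rfl⟩ := hx
        refine Submodule.subset_span ⟨i.succ, ?_⟩
        simp only [Fin.val_succ]
        rw [pow_succ, mul_comm]
      | zero => rw [mul_zero]; exact Submodule.zero_mem _
      | add x y _ _ hx hy => rw [mul_add]; exact Submodule.add_mem _ hx hy
      | smul a x _ hx => rw [mul_smul_comm]; exact Submodule.smul_mem _ _ hx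
    exact hmap _ hih

end Pool.Agent.helper12.PE
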