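import Mathlib

/-!
# The archimedean counting lemma
-/

set_option autoImplicit false

open Finset

namespace Pool.Agent.helper12.PE

/-- members of a residue class in a real interval -/
lemma ap_count (q c : ℕ) (hq : 1 ≤ q) (x y : ℝ) (hx : 0 ≤ x) (M : ℕ) (hM : y ≤ M) :
    (y - x) / q - 1 ≤ (#{N ∈ range M | N % q = c % q ∧ x ≤ (N : ℝ) ∧ (N : ℝ) < y} : ℝ) := by
  classical
  have hq0 : (0 : ℝ) < q := by exact_mod_cast hq
  rcases le_or_gt y x with hyx | hyx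
  · have h1 : (y - x) / q ≤ 0 := div_nonpos_of_nonpos_of_nonneg (by linarith) hq0.le
    have h2 : (0 : ℝ) ≤ (#{N ∈ range M | N % q = c % q ∧ x ≤ (N : ℝ) ∧ (N : ℝ) < y} : ℝ) := by
      positivity
    linarith
  set X := ⌈x⌉₊ with hX
  set d := (c + (q - X % q)) % q with hd
  set N0 := X + d with hN0
  set n := ⌊(y - x) / q⌋₊ with hn
  have hdq : d < q := Nat.mod_lt _ hq
  have hmod : N0 % q = c % q := by
    rw [hN0, hd, Nat.add_mod_mod]
    have h1 : X % q < q := Nat.mod_lt _ hq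
    have h2 : X + (c + (q - X % q)) = c + q * (X / q + 1) := by
      have := Nat.div_add_mod X q
      rw [Nat.mul_add]
      omega
    rw [h2, Nat.add_mul_mod_self_left]
  have hX1 : x ≤ X := Nat.le_ceil x
  have hX2 : (X : ℝ) < x + 1 := Nat.ceil_lt_add_one hx
  have hn1 : (n : ℝ) ≤ (y - x) / q := Nat.floor_le (by
    apply div_nonneg <;> linarith)
  have hn2 : (y - x) / q - 1 < n := by
    have := Nat.lt_floor_add_one ((y - x) / q)
    linarith
  have hsub : (range n).image (fun k => N0 + k * q)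
      ⊆ {N ∈ range M | N % q = c % q ∧ x ≤ (N : ℝ) ∧ (N : ℝ) < y} := by
    intro N hN
    rw [mem_image] at hN
    obtain ⟨k, hk, rfl⟩ := hN
    rw [mem_range] at hk
    have h1 : ((N0 + k * q : ℕ) : ℝ) < y := by
      have h2 : (k : ℝ) + 1 ≤ n := by exact_mod_cast hk
      have h3 : (n : ℝ) * q ≤ y - x := by rwa [le_div_iff₀ hq0] at hn1
      have h4 : (d : ℝ) + 1 ≤ q := by exact_mod_cast hdq
      push_cast
      rw [hN0]
      push_cast
      nlinarith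
    rw [mem_filter, mem_range]
    refine ⟨by exact_mod_cast h1.trans_le hM, ?_, ?_, h1⟩
    · rw [Nat.add_mul_mod_self_right]; exact hmod
    · push_cast
      have : (0 : ℝ) ≤ k * q := by positivity
      have h5 : (X : ℝ) ≤ N0 := by exact_mod_cast Nat.le_add_right X d
      linarith
  have hcard : n ≤ #{N ∈ range M | N % q = c % q ∧ x ≤ (N : ℝ) ∧ (N : ℝ) < y} := by
    calc n = #((range n).image (fun k => N0 + k * q)) := by
          rw [card_image_of_injective _ (fun a b h => by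
            simp only [Nat.add_left_cancel_iff] at h
            exact Nat.eq_of_mul_eq_mul_right hq h), card_range]
      _ ≤ _ := card_le_card hsub
  have : (n : ℝ) ≤ (#{N ∈ range M | N % q = c % q ∧ x ≤ (N : ℝ) ∧ (N : ℝ) < y} : ℝ) := by
    exact_mod_cast hcard
  linarith

/-- integers in a real interval -/
lemma icc_count (x y : ℝ) (hx : 0 ≤ x) (hxy : x ≤ y) :
    y - x - 1 ≤ (#(Icc ⌈x⌉₊ ⌊y⌋₊) : ℝ) := by
  rw [Nat.card_Icc]
  have h1 := Nat.ceil_lt_add_one hx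
  have h2 := Nat.lt_floor_add_one y
  rcases le_or_gt ⌈x⌉₊ (⌊y⌋₊ + 1) with h | h
  · rw [Nat.cast_sub h]
    push_cast
    linarith
  · rw [Nat.sub_eq_zero_of_le h.le]
    have h3 : ((⌊y⌋₊ : ℝ) + 1 + 1) ≤ ⌈x⌉₊ := by exact_mod_cast h
    push_cast
    linarith

/-- the window for `i` -/
def Win (P0 G p i N : ℕ) : Prop :=
  (P0 * i - 1) ^ 2 * G ≤ 3 * p * N + 1 ∧ 3 * p * N + 1 < (P0 * i + 1) ^ 2 * G

lemma win_disj {P0 G p i j N : ℕ} (hP : 6 ≤ P0) (hi : 1 ≤ i) (hj : 1 ≤ j) (h1 : Win P0 G p i N)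
    (h2 : Win P0 G p j N) : i = j := by
  have key : ∀ i j : ℕ, 1 ≤ i → 1 ≤ j → Win P0 G p i N → Win P0 G p j N → ¬ i < j := by
    intro i j hi hj h1 h2 hij
    have h3 : (P0 * j - 1) ^ 2 * G < (P0 * i + 1) ^ 2 * G := lt_of_le_of_lt h2.1 h1.2
    have h4 : (P0 * j - 1) ^ 2 < (P0 * i + 1) ^ 2 := lt_of_mul_lt_mul_right h3 (Nat.zero_le _)
    have h5 : P0 * j - 1 < P0 * i + 1 := lt_of_pow_lt_pow_left₀ 2 (Nat.zero_le _) h4
    have h6 : P0 * (i + 1) ≤ P0 * j := Nat.mul_le_mul_left _ hij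
    rw [Nat.mul_add] at h6
    omega
  rcases Nat.lt_trichotomy i j with h | h | h
  · exact absurd h (key i j hi hj h1 h2)
  · exact h
  · exact absurd h (key j i hj hi h2 h1)

open Classical in
lemma count_win (P0 q G p c Z i : ℕ) (hP : 6 ≤ P0) (hq : 1 ≤ q) (hG : 1 ≤ G) (hp : 1 ≤ p)
    (hi : 1 ≤ i) (hiZ : (P0 * i + 1) ^ 2 * G ≤ 3 * p * Z) :
    (4 * P0 * i * G : ℝ) / (3 * p) / q - 1
      ≤ (#{N ∈ Icc 1 Z | N % q = c % q ∧ Win P0 G p i N} : ℝ) := by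
  have hp0 : (0 : ℝ) < p := by exact_mod_cast hp
  have hPi : 6 ≤ P0 * i := by nlinarith
  have hcast : (((P0 * i - 1 : ℕ) : ℝ)) = P0 * i - 1 := by
    rw [Nat.cast_sub (by omega)]; push_cast; ring
  have h := ap_count q c hq ((((P0 * i - 1 : ℕ) : ℝ) ^ 2 * G - 1) / (3 * p))
    ((((P0 * i + 1 : ℕ) : ℝ) ^ 2 * G - 1) / (3 * p)) (by
      apply div_nonneg _ (by positivity)
      have h1 : (1 : ℝ) ≤ G := by exact_mod_cast hG
      have h2 : (1 : ℝ) ≤ ((P0 * i - 1 : ℕ) : ℝ) := by exact_mod_cast (by omega : 1 ≤ P0 * i - 1)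
      have h3 : (1 : ℝ) ≤ ((P0 * i - 1 : ℕ) : ℝ) ^ 2 := one_le_pow₀ h2
      nlinarith) Z (by
      rw [div_le_iff₀ (by positivity)]
      have h1 : (((P0 * i + 1 : ℕ) : ℝ)) ^ 2 * G ≤ 3 * p * Z := by exact_mod_cast hiZ
      linarith)
  have e1 : ((((P0 * i + 1 : ℕ) : ℝ) ^ 2 * G - 1) / (3 * p)
      - (((P0 * i - 1 : ℕ) : ℝ) ^ 2 * G - 1) / (3 * p)) = (4 * P0 * i * G : ℝ) / (3 * p) := by
    rw [hcast]; push_cast; ring
  rw [e1] at h
  refine h.trans ?_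
  have hsub : {N ∈ range Z | N % q = c % q ∧
      (((P0 * i - 1 : ℕ) : ℝ) ^ 2 * G - 1) / (3 * p) ≤ (N : ℝ) ∧
      (N : ℝ) < (((P0 * i + 1 : ℕ) : ℝ) ^ 2 * G - 1) / (3 * p)}
      ⊆ {N ∈ Icc 1 Z | N % q = c % q ∧ Win P0 G p i N} := by
    intro N hN
    rw [mem_filter, mem_range] at hN
    obtain ⟨h1, h2, h3, h4⟩ := hN
    rw [div_le_iff₀ (by positivity)] at h3
    rw [lt_div_iff₀ (by positivity)] at h4
    have h5 : (P0 * i - 1) ^ 2 * G ≤ 3 * p * N + 1 := by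
      have : (((P0 * i - 1 : ℕ) : ℝ)) ^ 2 * G ≤ 3 * p * N + 1 := by linarith
      exact_mod_cast this
    have h6 : 3 * p * N + 1 < (P0 * i + 1) ^ 2 * G := by
      have : (3 * p * N + 1 : ℝ) < (((P0 * i + 1 : ℕ) : ℝ)) ^ 2 * G := by linarith
      exact_mod_cast this
    rw [mem_filter, mem_Icc]
    refine ⟨⟨?_, h1.le⟩, h2, h5, h6⟩
    by_contra h7
    have h8 : N = 0 := by omega
    rw [h8] at h5
    have h9 : 25 ≤ (P0 * i - 1) ^ 2 := by
      calc 25 = 5 ^ 2 := by norm_num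
        _ ≤ _ := Nat.pow_le_pow_left (by omega) 2
    nlinarith
  exact_mod_cast card_le_card hsub

/-- the second window follows from the first for good `i`. -/
lemma second_window (P0 G p p' i l N : ℕ) (hP : 6 ≤ P0) (hG : 1 ≤ G) (hp : 1 ≤ p)
    (hi : 2 ≤ i) (β : ℝ) (hβ0 : 0 < β) (hβ1 : β ≤ 1 / (2 * P0)) (hβ : (1 + β) ^ 2 * p = p')
    (h1 : (l : ℝ) + 5 / (2 * P0) ≤ β * i) (h2 : β * i ≤ (l : ℝ) + 7 / (2 * P0))
    (hW : Win P0 G p i N) :
    (P0 * (i + l) + 1) ^ 2 * G ≤ 3 * p' * N + 1 ∧ 3 * p' * N + 1 < (P0 * (i + l) + 5) ^ 2 * G := by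
  obtain ⟨hw1, hw2⟩ := hW
  have hP' : (6 : ℝ) ≤ P0 := by exact_mod_cast hP
  have hP0 : (0 : ℝ) < P0 := by linarith
  have hG' : (1 : ℝ) ≤ G := by exact_mod_cast hG
  have hi' : (2 : ℝ) ≤ i := by exact_mod_cast hi
  have hPi : 12 ≤ P0 * i := by nlinarith
  have hcast : (((P0 * i - 1 : ℕ) : ℝ)) = P0 * i - 1 := by
    rw [Nat.cast_sub (by omega)]; push_cast; ring
  have hβ2 : β ≤ 1 / 12 := hβ1.trans (by
    apply one_div_le_one_div_of_le (by norm_num); linarith)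
  have e1 : P0 * (5 / (2 * (P0 : ℝ))) = 5 / 2 := by field_simp
  have e2 : P0 * (7 / (2 * (P0 : ℝ))) = 7 / 2 := by field_simp
  have h1' : (P0 : ℝ) * l + 5 / 2 ≤ β * (P0 * i) := by
    have := mul_le_mul_of_nonneg_left h1 hP0.le
    rw [mul_add, e1] at this; linarith
  have h2' : β * (P0 * i) ≤ (P0 : ℝ) * l + 7 / 2 := by
    have := mul_le_mul_of_nonneg_left h2 hP0.le
    rw [mul_add, e2] at this; linarith
  have hw1' : ((P0 : ℝ) * i - 1) ^ 2 * G ≤ 3 * p * N + 1 := by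
    rw [← hcast]; exact_mod_cast hw1
  have hw2' : (3 * p * N + 1 : ℝ) < (P0 * i + 1) ^ 2 * G := by exact_mod_cast hw2
  have e3 : (3 * p' * N + 1 : ℝ) = (1 + β) ^ 2 * (3 * p * N + 1) - ((1 + β) ^ 2 - 1) := by
    rw [← hβ]; ring
  have hb2 : (1 + β) ^ 2 - 1 ≤ 1 / 5 := by nlinarith
  have hb3 : 0 ≤ (1 + β) ^ 2 - 1 := by nlinarith
  have hPi' : (12 : ℝ) ≤ P0 * i := by exact_mod_cast hPi
  have hl0 : (0 : ℝ) ≤ (P0 : ℝ) * l := by positivity
  constructor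
  · have h3 : (P0 * (i + l) + 1 : ℝ) + 5 / 12 ≤ (1 + β) * (P0 * i - 1) := by
      nlinarith
    have h4 : (P0 * (i + l) + 1 : ℝ) ^ 2 + 5 / 12 ≤ ((1 + β) * (P0 * i - 1)) ^ 2 := by
      have h5 : (0 : ℝ) ≤ P0 * (i + l) + 1 := by positivity
      have h6 : (1 : ℝ) ≤ P0 * (i + l) + 1 := by nlinarith
      nlinarith
    have h7 : (P0 * (i + l) + 1 : ℝ) ^ 2 * G ≤ 3 * p' * N + 1 := by
      rw [e3]
      have h8 : (1 + β) ^ 2 * (((P0 : ℝ) * i - 1) ^ 2 * G) ≤ (1 + β) ^ 2 * (3 * p * N + 1) := by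
        gcongr
      have h9 : ((P0 * (i + l) + 1 : ℝ) ^ 2 + 5 / 12) * G ≤ ((1 + β) * (P0 * i - 1)) ^ 2 * G := by
        gcongr
      nlinarith
    exact_mod_cast h7
  · have h3 : (1 + β) * (P0 * i + 1) ≤ (P0 * (i + l) + 5 : ℝ) := by
      nlinarith
    have h7 : (3 * p' * N + 1 : ℝ) < (P0 * (i + l) + 5 : ℝ) ^ 2 * G := by
      rw [e3]
      have h8 : (1 + β) ^ 2 * (3 * p * N + 1 : ℝ) < (1 + β) ^ 2 * ((P0 * i + 1) ^ 2 * G) := by
        gcongr
      have h9 : ((1 + β) * (P0 * i + 1)) ^ 2 * G ≤ (P0 * (i + l) + 5 : ℝ) ^ 2 * G := by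
        gcongr
      nlinarith
    exact_mod_cast h7

open Classical in
/-- C2. -/
theorem count_arch (P0 q G p p' c Z : ℕ) (hP : 6 ≤ P0) (hq : 1 ≤ q) (hG : 1 ≤ G) (hp : 1 ≤ p)
    (hpp : p < p') (hr : P0 * p' ≤ (P0 + 1) * p) (hZ : 1000 * P0 ^ 2 * q ^ 2 * p * G ≤ Z) :
    Z ≤ 64 * P0 ^ 2 * q * (((Finset.Icc 1 Z).filter fun N => N % q = c % q ∧
      (∃ i : ℕ, 1 ≤ i ∧ (P0 * i - 1) ^ 2 * G ≤ 3 * p * N + 1 ∧ 3 * p * N + 1 < (P0 * i + 1) ^ 2 * G) ∧
      (∃ i : ℕ, (P0 * i + 1) ^ 2 * G ≤ 3 * p' * N + 1 ∧ 3 * p' * N + 1 < (P0 * i + 5) ^ 2 * G)).card) := by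
  have hp0 : (0 : ℝ) < p := by exact_mod_cast hp
  have hp1 : (1 : ℝ) ≤ p := by exact_mod_cast hp
  have hq1 : (1 : ℝ) ≤ q := by exact_mod_cast hq
  have hG1 : (1 : ℝ) ≤ G := by exact_mod_cast hG
  have hP' : (6 : ℝ) ≤ P0 := by exact_mod_cast hP
  have hP0 : (0 : ℝ) < P0 := by linarith
  have hpp' : (p : ℝ) + 1 ≤ p' := by exact_mod_cast hpp
  have hr' : (P0 : ℝ) * p' ≤ (P0 + 1) * p := by exact_mod_cast hr
  have hZ' : 1000 * (P0 : ℝ) ^ 2 * q ^ 2 * p * G ≤ Z := by exact_mod_cast hZ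
  -- β
  set r := Real.sqrt (p' / p) with hrdef
  have hr2 : r ^ 2 = p' / p := Real.sq_sqrt (by positivity)
  have hr0 : 0 ≤ r := Real.sqrt_nonneg _
  have hr2' : r ^ 2 * p = p' := by rw [hr2]; field_simp
  have hr1 : 1 < r := by
    by_contra h
    push Not at h
    have : r ^ 2 ≤ 1 := by nlinarith
    nlinarith
  have hrP : r ≤ 1 + 1 / (2 * P0) := by
    have h1 : r ^ 2 ≤ (1 + 1 / (2 * (P0 : ℝ))) ^ 2 := by
      have h2 : r ^ 2 ≤ 1 + 1 / P0 := by
        have h3 : (P0 : ℝ) * (r ^ 2 * p) ≤ (P0 + 1) * p := by rw [hr2']; exact hr'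
        have h4 : (P0 : ℝ) * r ^ 2 ≤ P0 + 1 := by
          have : ((P0 : ℝ) * r ^ 2) * p ≤ (P0 + 1) * p := by linarith
          exact le_of_mul_le_mul_right this hp0
        have h5 : (1 + 1 / (P0 : ℝ)) = (P0 + 1) / P0 := by field_simp
        rw [h5, le_div_iff₀ hP0]; linarith
      have h6 : (1 + 1 / (2 * (P0 : ℝ))) ^ 2 = 1 + 1 / P0 + (1 / (2 * (P0 : ℝ))) ^ 2 := by
        field_simp; ring
      rw [h6]
      have : 0 ≤ (1 / (2 * (P0 : ℝ))) ^ 2 := by positivity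
      linarith
    exact (pow_le_pow_iff_left₀ hr0 (by positivity) (by norm_num)).mp h1
  set β := r - 1 with hβdef
  have hβ0 : 0 < β := by linarith
  have hβ1 : β ≤ 1 / (2 * P0) := by linarith
  have hβ12 : β ≤ 1 / 12 := hβ1.trans (by
    apply one_div_le_one_div_of_le (by norm_num); linarith)
  have hβeq : (1 + β) ^ 2 * p = p' := by
    rw [hβdef]; rw [show 1 + (r - 1) = r by ring]; exact hr2'
  have hβp : 12 / 25 ≤ β * p := by
    have h1 : 1 ≤ β * (2 + β) * p := by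
      have : (1 + β) ^ 2 * p = p + β * (2 + β) * p := by ring
      linarith
    nlinarith [mul_pos hβ0 hp0]
  -- R
  set R := Real.sqrt (3 * p * Z / G) with hRdef
  have hR2 : R ^ 2 = 3 * p * Z / G := Real.sq_sqrt (by positivity)
  have hR2' : R ^ 2 * G = 3 * p * Z := by rw [hR2]; field_simp
  have hR0 : 0 ≤ R := Real.sqrt_nonneg _
  have hRbig : 50 * P0 * q * p ≤ R := by
    rw [hRdef]
    apply Real.le_sqrt_of_sq_le
    rw [le_div_iff₀ (by linarith)]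
    have h1 : 3 * (p : ℝ) * (1000 * (P0 : ℝ) ^ 2 * q ^ 2 * p * G) ≤ 3 * p * Z := by gcongr
    have h2 : 0 ≤ (P0 : ℝ) ^ 2 * q ^ 2 * p ^ 2 * G := by positivity
    nlinarith
  have hRpos : 0 < R := lt_of_lt_of_le (by positivity) hRbig
  -- m
  set m := β * R / P0 with hm
  have hm24 : 24 ≤ m := by
    rw [hm, le_div_iff₀ hP0]
    have h1 : β * (50 * P0 * q * p) ≤ β * R := by gcongr
    have h2 : 24 * (P0 : ℝ) ≤ β * (50 * P0 * q * p) := by
      have h3 : β * (50 * P0 * q * p) = 50 * P0 * q * (β * p) := by ring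
      rw [h3]
      calc 24 * (P0 : ℝ) = 50 * P0 * 1 * (12 / 25) := by ring
        _ ≤ 50 * P0 * q * (β * p) := by gcongr
    linarith
  have hmR : m / β = R / P0 := by rw [hm]; field_simp
  -- index sets
  set Ls := Icc ⌈m / 2⌉₊ ⌊m - 2⌋₊ with hLs
  set J : ℕ → Finset ℕ := fun l => Icc ⌈((l : ℝ) + 5 / (2 * P0)) / β⌉₊ ⌊((l : ℝ) + 7 / (2 * P0)) / β⌋₊
    with hJ
  have hJmem : ∀ l i, i ∈ J l → (l : ℝ) + 5 / (2 * P0) ≤ β * i ∧ β * i ≤ (l : ℝ) + 7 / (2 * P0) := by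
    intro l i hi
    simp only [hJ, mem_Icc] at hi
    have h1 := (Nat.le_ceil _).trans (Nat.cast_le (α := ℝ).mpr hi.1)
    have h2 : (i : ℝ) ≤ ((l : ℝ) + 7 / (2 * P0)) / β :=
      (Nat.cast_le (α := ℝ).mpr hi.2).trans (Nat.floor_le (by positivity))
    rw [div_le_iff₀ hβ0] at h1
    rw [le_div_iff₀ hβ0] at h2
    constructor <;> linarith
  have hLmem : ∀ l ∈ Ls, m / 2 ≤ l ∧ (l : ℝ) ≤ m - 2 := by
    intro l hl
    simp only [hLs, mem_Icc] at hl
    exact ⟨(Nat.le_ceil _).trans (Nat.cast_le (α := ℝ).mpr hl.1),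
      (Nat.cast_le (α := ℝ).mpr hl.2).trans (Nat.floor_le (by linarith))⟩
  have hLcard : m / 4 ≤ (#Ls : ℝ) := by
    have := icc_count (m / 2) (m - 2) (by linarith) (by linarith)
    linarith
  have h7P : 7 / (2 * (P0 : ℝ)) ≤ 7 / 12 := by
    apply div_le_div_of_nonneg_left (by norm_num) (by norm_num); linarith
  have h5P : 0 < 5 / (2 * (P0 : ℝ)) := by positivity
  have hJcard : ∀ l, 1 / (2 * P0 * β) ≤ (#(J l) : ℝ) := by
    intro l
    have h1 := icc_count (((l : ℝ) + 5 / (2 * P0)) / β) (((l : ℝ) + 7 / (2 * P0)) / β) (by positivity)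
      (by gcongr; norm_num)
    have h2 : ((l : ℝ) + 7 / (2 * P0)) / β - ((l : ℝ) + 5 / (2 * P0)) / β = 1 / (P0 * β) := by
      field_simp; ring
    rw [h2] at h1
    have h3 : 1 / (P0 * β) = 2 * (1 / (2 * P0 * β)) := by field_simp
    have h4 : 1 ≤ 1 / (2 * P0 * β) := by
      rw [le_div_iff₀ (by positivity)]
      rw [le_div_iff₀ (by positivity)] at hβ1
      linarith
    rw [h3] at h1
    linarith
  have hidx : ∀ l ∈ Ls, ∀ i ∈ J l, 2 ≤ i ∧ (P0 * i + 1) ^ 2 * G ≤ 3 * p * Z ∧ R / (2 * P0) ≤ i := by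
    intro l hl i hi
    obtain ⟨h1, h2⟩ := hLmem l hl
    obtain ⟨h3, h4⟩ := hJmem l i hi
    have h5 : R / (2 * P0) ≤ i := by
      have h6 : m / 2 ≤ β * i := by linarith
      have h7 : m / 2 / β ≤ i := by rw [div_le_iff₀ hβ0]; linarith
      have h8 : m / 2 / β = R / (2 * P0) := by rw [hm]; field_simp
      linarith
    refine ⟨?_, ?_, h5⟩
    · have h6 : (24 : ℝ) / 2 ≤ β * i := by linarith
      have h7 : (2 : ℝ) ≤ i := by nlinarith
      exact_mod_cast h7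
    · have h6 : β * i ≤ m - 1 := by linarith
      have h7 : (i : ℝ) ≤ R / P0 - 1 / β := by
        have h8 : (i : ℝ) ≤ (m - 1) / β := by rw [le_div_iff₀ hβ0]; linarith
        rw [sub_div, hmR] at h8
        exact h8
      have h9 : (12 : ℝ) ≤ 1 / β := by
        rw [le_div_iff₀ hβ0]; linarith
      have h10 : (P0 : ℝ) * i + 1 ≤ R := by
        have : (P0 : ℝ) * i ≤ P0 * (R / P0 - 12) := by gcongr; linarith
        have e : (P0 : ℝ) * (R / P0 - 12) = R - 12 * P0 := by field_simp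
        nlinarith
      have h11 : ((P0 : ℝ) * i + 1) ^ 2 * G ≤ 3 * p * Z := by
        rw [← hR2']; gcongr
      exact_mod_cast h11
  -- sets of N
  set W : ℕ → Finset ℕ := fun i => {N ∈ Icc 1 Z | N % q = c % q ∧ Win P0 G p i N} with hW
  have hWcard : ∀ l ∈ Ls, ∀ i ∈ J l, R * G / (3 * p * q) ≤ (#(W i) : ℝ) := by
    intro l hl i hi
    obtain ⟨h1, h2, h3⟩ := hidx l hl i hi
    have h4 := count_win P0 q G p c Z i hP hq hG hp (by omega) h2
    refine le_trans ?_ h4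
    have h5 : (2 * (R * G / (3 * p * q)) : ℝ) ≤ (4 * P0 * i * G : ℝ) / (3 * p) / q := by
      rw [div_div, mul_div_assoc', div_le_div_iff_of_pos_right (by positivity)]
      have h6 : R ≤ 2 * P0 * i := by
        rw [div_le_iff₀ (by positivity)] at h3; linarith
      nlinarith
    have h7 : 1 ≤ R * G / (3 * p * q) := by
      rw [le_div_iff₀ (by positivity)]
      have h8 : (50 * P0 * q * p) * 1 ≤ R * G := by gcongr
      have h9 : 0 < (q : ℝ) * p := by positivity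
      nlinarith
    linarith
  -- union
  have hsub : (Ls.biUnion fun l => (J l).biUnion W) ⊆
      ((Finset.Icc 1 Z).filter fun N => N % q = c % q ∧
      (∃ i : ℕ, 1 ≤ i ∧ (P0 * i - 1) ^ 2 * G ≤ 3 * p * N + 1 ∧ 3 * p * N + 1 < (P0 * i + 1) ^ 2 * G) ∧
      (∃ i : ℕ, (P0 * i + 1) ^ 2 * G ≤ 3 * p' * N + 1 ∧ 3 * p' * N + 1 < (P0 * i + 5) ^ 2 * G)) := by
    intro N hN
    simp only [mem_biUnion] at hN
    obtain ⟨l, hl, i, hi, hN⟩ := hN
    simp only [hW, mem_filter] at hN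
    obtain ⟨h1, h2, h3⟩ := hN
    obtain ⟨h4, h5, h6⟩ := hidx l hl i hi
    obtain ⟨h7, h8⟩ := hJmem l i hi
    rw [mem_filter]
    refine ⟨h1, h2, ⟨i, by omega, h3.1, h3.2⟩, ⟨i + l, ?_⟩⟩
    exact second_window P0 G p p' i l N hP hG hp h4 β hβ0 hβ1 hβeq h7 h8 h3
  have hWdisj : ∀ i j, 1 ≤ i → 1 ≤ j → i ≠ j → Disjoint (W i) (W j) := by
    intro i j hi hj hij
    rw [Finset.disjoint_left]
    intro N h1 h2
    simp only [hW, mem_filter] at h1 h2
    exact hij (win_disj hP hi hj h1.2.2 h2.2.2)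
  have hinner : ∀ l ∈ Ls, (1 / (2 * P0 * β)) * (R * G / (3 * p * q)) ≤ (#((J l).biUnion W) : ℝ) := by
    intro l hl
    rw [card_biUnion (fun i hi j hj hij => hWdisj i j
      (by have := (hidx l hl i hi).1; omega) (by have := (hidx l hl j hj).1; omega) hij)]
    push_cast
    calc (1 / (2 * P0 * β)) * (R * G / (3 * p * q))
        ≤ (#(J l) : ℝ) * (R * G / (3 * p * q)) := by gcongr; exact hJcard l
      _ = ∑ i ∈ J l, R * G / (3 * p * q) := by rw [sum_const, nsmul_eq_mul]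
      _ ≤ _ := sum_le_sum fun i hi => hWcard l hl i hi
  have houter : (m / 4) * ((1 / (2 * P0 * β)) * (R * G / (3 * p * q)))
      ≤ (#(Ls.biUnion fun l => (J l).biUnion W) : ℝ) := by
    rw [card_biUnion]
    · push_cast
      calc (m / 4) * ((1 / (2 * P0 * β)) * (R * G / (3 * p * q)))
          ≤ (#Ls : ℝ) * ((1 / (2 * P0 * β)) * (R * G / (3 * p * q))) := by gcongr
        _ = ∑ l ∈ Ls, ((1 / (2 * P0 * β)) * (R * G / (3 * p * q))) := by
            rw [sum_const, nsmul_eq_mul]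
        _ ≤ _ := sum_le_sum fun l hl => hinner l hl
    · intro l hl l' hl' hll'
      rw [Function.onFun, Finset.disjoint_left]
      intro N h1 h2
      simp only [mem_biUnion] at h1 h2
      obtain ⟨i, hi, hNi⟩ := h1
      obtain ⟨j, hj, hNj⟩ := h2
      simp only [hW, mem_filter] at hNi hNj
      have hij := win_disj hP (by have := (hidx l hl i hi).1; omega)
        (by have := (hidx l' hl' j hj).1; omega) hNi.2.2 hNj.2.2
      subst hij
      obtain ⟨a1, a2⟩ := hJmem l i hi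
      obtain ⟨b1, b2⟩ := hJmem l' i hj
      apply hll'
      have c1 : (l : ℝ) < l' + 1 := by linarith
      have c2 : (l' : ℝ) < l + 1 := by linarith
      have c3 : l < l' + 1 := by exact_mod_cast c1
      have c4 : l' < l + 1 := by exact_mod_cast c2
      omega
  have hfinal := houter.trans (Nat.cast_le (α := ℝ).mpr (card_le_card hsub))
  have e : (m / 4) * ((1 / (2 * P0 * β)) * (R * G / (3 * p * q))) = Z / (8 * P0 ^ 2 * q) := by
    have e1 : (m / 4) * ((1 / (2 * P0 * β)) * (R * G / (3 * p * q)))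
        = (m / β) * (R * G) / (24 * P0 * p * q) := by field_simp; ring
    rw [e1, hmR]
    have e2 : R / P0 * (R * G) = 3 * p * Z / P0 := by
      rw [← hR2']; ring
    rw [e2]
    field_simp
    ring
  rw [e, div_le_iff₀ (by positivity)] at hfinal
  set K := (((Finset.Icc 1 Z).filter fun N => N % q = c % q ∧
      (∃ i : ℕ, 1 ≤ i ∧ (P0 * i - 1) ^ 2 * G ≤ 3 * p * N + 1 ∧ 3 * p * N + 1 < (P0 * i + 1) ^ 2 * G) ∧
      (∃ i : ℕ, (P0 * i + 1) ^ 2 * G ≤ 3 * p' * N + 1 ∧ 3 * p' * N + 1 < (P0 * i + 5) ^ 2 * G)).card)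
    with hK
  have h64 : (Z : ℝ) ≤ 64 * P0 ^ 2 * q * K := by
    have : 0 ≤ (K : ℝ) * (8 * P0 ^ 2 * q) := by positivity
    calc (Z : ℝ) ≤ K * (8 * P0 ^ 2 * q) := hfinal
      _ ≤ 8 * (K * (8 * P0 ^ 2 * q)) := by linarith
      _ = _ := by ring
  exact_mod_cast h64

end Pool.Agent.helper12.PE
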