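import Mathlib
import Pool.Agent.helper12.PE.Hecke
import Pool.Agent.helper12.PE.Integral

set_option autoImplicit false
open Finset UpperHalfPlane ModularForm PowerSeries
open scoped MatrixGroups Real
open Pool.Agent.helper81 (EE)

noncomputable section

namespace Pool.Agent.helper12.PE

/-- The integral expansion of the powers of the discriminant. -/
def disc (j : ℕ) : ℤ⟦X⟧ := (X * (pentagonalSeries ℤ) ^ 24) ^ j

lemma map_disc_pow (j : ℕ) : PowerSeries.map (Int.castRingHom (ZMod 2)) (disc j) = DD ^ j := by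
  rw [disc, map_pow, map_disc]

lemma exists_form (j : ℕ) : ∃ F : ModularForm 𝒮ℒ ((12 * j : ℕ) : ℤ),
    qExpansion 1 F = PowerSeries.map (Int.castRingHom ℂ) (disc j) := by
  refine ⟨ModularForm.mcast (by push_cast; ring)
    ((CuspForm.discriminant : ModularForm 𝒮ℒ 12).pow j), ?_⟩
  rw [ModularForm.qExpansion_mcast, ModularForm.qExpansion_pow one_pos one_mem_strictPeriods_SL,
    disc, map_pow, ← qExpansion_discriminant]
  rfl

/-- Hecke finiteness of the powers of `Δ` modulo 2. -/
theorem hecke_finite (j : ℕ) : ∃ V : Finset ((ZMod 2)⟦X⟧), V.card ≤ 2 ^ (j + 1) ∧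
    ∀ p : ℕ, p.Prime → p ≠ 2 → ∃ v ∈ V, ∀ N : ℕ, ¬ p ∣ N →
      coeff N v = coeff (p * N) (DD ^ j) := by
  classical
  refine ⟨(Finset.univ : Finset (Fin (j + 1) → ZMod 2)).image
    (fun c => ∑ i : Fin (j + 1), c i • DD ^ (i : ℕ)), ?_, ?_⟩
  · refine card_image_le.trans ?_
    rw [card_univ, Fintype.card_fun, ZMod.card, Fintype.card_fin]
  · intro p hp hp2
    obtain ⟨F, hF⟩ := exists_form j
    obtain ⟨G, hG⟩ := exists_hecke (12 * j) p hp F
    set φ : ℤ⟦X⟧ := .mk fun n => p * coeff (p * n) (disc j) +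
      (if p ∣ n then (p : ℤ) ^ (12 * j) * coeff (n / p) (disc j) else 0) with hφ
    have hGφ : qExpansion 1 G = PowerSeries.map (Int.castRingHom ℂ) φ := by
      ext n
      rw [hG, hF, coeff_map, coeff_map, coeff_map, hφ, coeff_mk]
      split_ifs with h <;> simp
    have hmem := integral_form_mod_two j G φ hGφ
    rw [Submodule.mem_span_range_iff_exists_fun] at hmem
    obtain ⟨c, hc⟩ := hmem
    refine ⟨_, mem_image.mpr ⟨c, mem_univ _, hc⟩, ?_⟩
    intro N hN
    rw [coeff_map, hφ, coeff_mk, if_neg hN, add_zero, ← map_disc_pow, coeff_map]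
    have hodd : ((p : ℤ) : ZMod 2) = 1 := by
      have h1 : p % 2 = 1 := Nat.odd_iff.mp (hp.odd_of_ne_two hp2)
      rw [Int.cast_natCast, ZMod.natCast_eq_one_iff_odd]
      exact hp.odd_of_ne_two hp2
    rw [eq_intCast, eq_intCast, Int.cast_mul, hodd, one_mul]

end Pool.Agent.helper12.PE
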