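import Mathlib

/-!
# Module PE-E (helper9): matching inside classes
-/

set_option autoImplicit false

namespace Pool.Agent.helper12.PE

/-- a geometrically growing set has a small sum of reciprocals -/
theorem sum_inv_geometric (P0 : ℕ) (hP0 : 1 ≤ P0) (T : Finset ℕ) :
    (∀ p ∈ T, ∀ p' ∈ T, p < p' → (P0 + 1) * p < P0 * p') → ∀ m : ℝ, 0 < m →
      (∀ p ∈ T, m ≤ p) → ∑ p ∈ T, (1 : ℝ) / p ≤ (P0 + 1) / m := by
  refine Finset.induction_on_min T ?_ ?_
  · intro _ m hm _
    rw [Finset.sum_empty]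
    positivity
  · intro a s has ih hT m hm hm'
    have ha : a ∉ s := fun h => lt_irrefl _ (has a h)
    have hP : (0 : ℝ) < P0 := by exact_mod_cast hP0
    have ham : m ≤ a := hm' a (Finset.mem_insert_self a s)
    have ha0 : (0 : ℝ) < a := lt_of_lt_of_le hm ham
    rw [Finset.sum_insert ha]
    have h1 := ih (fun p hp p' hp' h => hT p (Finset.mem_insert_of_mem hp) p'
      (Finset.mem_insert_of_mem hp') h) ((P0 + 1) * a / P0) (by positivity) (by
        intro p hp
        rw [div_le_iff₀ hP]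
        have := hT a (Finset.mem_insert_self a s) p (Finset.mem_insert_of_mem hp) (has p hp)
        have h2 : (((P0 + 1) * a : ℕ) : ℝ) < ((P0 * p : ℕ) : ℝ) := by exact_mod_cast this
        push_cast at h2
        linarith)
    have h2 : ((P0 : ℝ) + 1) / ((P0 + 1) * a / P0) = P0 / a := by
      field_simp
    rw [h2] at h1
    calc (1 : ℝ) / a + ∑ p ∈ s, (1 : ℝ) / p ≤ 1 / a + P0 / a := by linarith
      _ = (P0 + 1) / a := by ring
      _ ≤ (P0 + 1) / m := div_le_div_of_nonneg_left (by positivity) hm ham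

/-- the conditions on a matching -/
def IsMat {ι : Type*} (P : Finset ℕ) (P0 : ℕ) (cl : ℕ → ι) (M : Finset (ℕ × ℕ)) : Prop :=
  (∀ e ∈ M, e.1 ∈ P ∧ e.2 ∈ P ∧ e.1 < e.2 ∧ P0 * e.2 ≤ (P0 + 1) * e.1 ∧ cl e.1 = cl e.2) ∧
  (∀ e ∈ M, ∀ e' ∈ M, e ≠ e' → e.1 ≠ e'.1 ∧ e.1 ≠ e'.2 ∧ e.2 ≠ e'.1 ∧ e.2 ≠ e'.2)

theorem exists_maximal {ι : Type*} (P : Finset ℕ) (P0 : ℕ) (cl : ℕ → ι) :
    ∃ M : Finset (ℕ × ℕ), IsMat P P0 cl M ∧
      ∀ M', IsMat P P0 cl M' → M'.card ≤ M.card := by
  classical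
  have hne : ((P ×ˢ P).powerset.filter fun M => IsMat P P0 cl M).Nonempty := by
    refine ⟨∅, ?_⟩
    simp [IsMat]
  obtain ⟨M, hM, hmax⟩ := Finset.exists_max_image _ Finset.card hne
  refine ⟨M, (Finset.mem_filter.1 hM).2, fun M' hM' => hmax M' ?_⟩
  refine Finset.mem_filter.2 ⟨Finset.mem_powerset.2 fun e he => ?_, hM'⟩
  have := hM'.1 e he
  exact Finset.mem_product.2 ⟨this.1, this.2.1⟩

/-- E. Pairing of the elements of `P` inside classes. -/
theorem exists_matching {ι : Type*} (P : Finset ℕ) (y Q P0 : ℕ) (hy : 1 ≤ y) (hP0 : 1 ≤ P0)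
    (hP : ∀ p ∈ P, y ≤ p) (cl : ℕ → ι) (S : Finset ι) (hS : S.card ≤ Q) (hcl : ∀ p ∈ P, cl p ∈ S) :
    ∃ M : Finset (ℕ × ℕ),
      (∀ e ∈ M, e.1 ∈ P ∧ e.2 ∈ P ∧ e.1 < e.2 ∧ P0 * e.2 ≤ (P0 + 1) * e.1 ∧ cl e.1 = cl e.2) ∧
      (∀ e ∈ M, ∀ e' ∈ M, e ≠ e' → e.1 ≠ e'.1 ∧ e.1 ≠ e'.2 ∧ e.2 ≠ e'.1 ∧ e.2 ≠ e'.2) ∧
      ∑ p ∈ P, (1 : ℝ) / p ≤ 3 * ∑ e ∈ M, (1 : ℝ) / e.2 + Q * (P0 + 1) / y := by
  classical
  obtain ⟨M, hM, hmax⟩ := exists_maximal P P0 cl
  refine ⟨M, hM.1, hM.2, ?_⟩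
  -- the vertices of the matching and the others
  set V := M.image Prod.fst ∪ M.image Prod.snd with hV
  have hVP : V ⊆ P := by
    intro p hp
    rw [hV, Finset.mem_union, Finset.mem_image, Finset.mem_image] at hp
    rcases hp with ⟨e, he, rfl⟩ | ⟨e, he, rfl⟩
    · exact (hM.1 e he).1
    · exact (hM.1 e he).2.1
  have hsplit : ∑ p ∈ P, (1 : ℝ) / p = ∑ p ∈ V, (1 : ℝ) / p + ∑ p ∈ P \ V, (1 : ℝ) / p := by
    rw [add_comm, Finset.sum_sdiff hVP]
  -- matched part
  have h1 : ∑ p ∈ V, (1 : ℝ) / p ≤ 3 * ∑ e ∈ M, (1 : ℝ) / e.2 := by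
    have ha : ∑ p ∈ V, (1 : ℝ) / p ≤ ∑ p ∈ M.image Prod.fst, (1 : ℝ) / p +
        ∑ p ∈ M.image Prod.snd, (1 : ℝ) / p := by
      rw [← Finset.sum_union_inter]
      have : 0 ≤ ∑ p ∈ M.image Prod.fst ∩ M.image Prod.snd, (1 : ℝ) / p :=
        Finset.sum_nonneg fun p _ => by positivity
      linarith
    have hb : ∑ p ∈ M.image Prod.fst, (1 : ℝ) / p = ∑ e ∈ M, (1 : ℝ) / e.1 := by
      refine Finset.sum_image fun e he e' he' h => ?_
      by_contra hne
      exact (hM.2 e he e' he' hne).1 h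
    have hc : ∑ p ∈ M.image Prod.snd, (1 : ℝ) / p = ∑ e ∈ M, (1 : ℝ) / e.2 := by
      refine Finset.sum_image fun e he e' he' h => ?_
      by_contra hne
      exact (hM.2 e he e' he' hne).2.2.2 h
    have hd : ∑ e ∈ M, (1 : ℝ) / e.1 ≤ 2 * ∑ e ∈ M, (1 : ℝ) / e.2 := by
      rw [Finset.mul_sum]
      refine Finset.sum_le_sum fun e he => ?_
      obtain ⟨e1, e2, e3, e4, -⟩ := hM.1 e he
      have hp : 0 < e.1 := lt_of_lt_of_le hy (hP _ e1)
      have hp' : 0 < e.2 := lt_of_lt_of_le hy (hP _ e2)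
      have h5 : e.2 ≤ 2 * e.1 := by
        by_contra hc
        push Not at hc
        have : P0 * (2 * e.1 + 1) ≤ (P0 + 1) * e.1 :=
          (Nat.mul_le_mul_left P0 hc).trans e4
        nlinarith
      have h6 : (e.2 : ℝ) ≤ 2 * e.1 := by exact_mod_cast h5
      have h7 : (0 : ℝ) < e.1 := by exact_mod_cast hp
      have h8 : (0 : ℝ) < e.2 := by exact_mod_cast hp'
      rw [mul_one_div, div_le_div_iff₀ h7 h8]
      linarith
    rw [hb, hc] at ha
    linarith
  -- unmatched part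
  have h2 : ∑ p ∈ P \ V, (1 : ℝ) / p ≤ Q * (P0 + 1) / y := by
    have hmaps : ∀ p ∈ P \ V, cl p ∈ S := fun p hp => hcl p (Finset.mem_sdiff.1 hp).1
    rw [← Finset.sum_fiberwise_of_maps_to hmaps]
    have hy' : (0 : ℝ) < y := by exact_mod_cast hy
    calc ∑ s ∈ S, ∑ p ∈ (P \ V).filter (fun p => cl p = s), (1 : ℝ) / p
        ≤ ∑ s ∈ S, ((P0 : ℝ) + 1) / y := by
          refine Finset.sum_le_sum fun s _ => ?_
          refine sum_inv_geometric P0 hP0 _ ?_ y hy' ?_
          · intro p hp p' hp' hlt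
            obtain ⟨hp1, hp2⟩ := Finset.mem_filter.1 hp
            obtain ⟨hp1', hp2'⟩ := Finset.mem_filter.1 hp'
            obtain ⟨hpP, hpV⟩ := Finset.mem_sdiff.1 hp1
            obtain ⟨hpP', hpV'⟩ := Finset.mem_sdiff.1 hp1'
            by_contra hc
            push Not at hc
            have nfst : ∀ e ∈ M, ∀ x, x ∉ V → e.1 ≠ x := by
              rintro e he x hx rfl
              exact hx (Finset.mem_union_left _ (Finset.mem_image_of_mem _ he))
            have nsnd : ∀ e ∈ M, ∀ x, x ∉ V → e.2 ≠ x := by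
              rintro e he x hx rfl
              exact hx (Finset.mem_union_right _ (Finset.mem_image_of_mem _ he))
            have hnew : IsMat P P0 cl (insert (p, p') M) := by
              constructor
              · intro e he
                rcases Finset.mem_insert.1 he with rfl | he
                · exact ⟨hpP, hpP', hlt, hc, by rw [hp2, hp2']⟩
                · exact hM.1 e he
              · intro e he e' he' hne
                rcases Finset.mem_insert.1 he with rfl | he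
                · rcases Finset.mem_insert.1 he' with rfl | he'
                  · exact absurd rfl hne
                  · exact ⟨(nfst e' he' p hpV).symm, (nsnd e' he' p hpV).symm,
                      (nfst e' he' p' hpV').symm, (nsnd e' he' p' hpV').symm⟩
                · rcases Finset.mem_insert.1 he' with rfl | he'
                  · exact ⟨nfst e he p hpV, nfst e he p' hpV', nsnd e he p hpV,
                      nsnd e he p' hpV'⟩
                  · exact hM.2 e he e' he' hne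
            have hcard := hmax _ hnew
            rw [Finset.card_insert_of_notMem (fun h => nfst _ h p hpV rfl)] at hcard
            omega
          · intro p hp
            exact_mod_cast hP p (Finset.mem_sdiff.1 (Finset.mem_filter.1 hp).1).1
      _ = S.card * (((P0 : ℝ) + 1) / y) := by rw [Finset.sum_const, nsmul_eq_mul]
      _ ≤ Q * (((P0 : ℝ) + 1) / y) := by
          refine mul_le_mul_of_nonneg_right ?_ (by positivity)
          exact_mod_cast hS
      _ = Q * (P0 + 1) / y := by ring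
  linarith

end Pool.Agent.helper12.PE
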