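import Mathlib

/-!
# Primes in `[y, y ^ 2]` with prescribed small sum of reciprocals
-/

set_option autoImplicit false

open Finset

namespace Pool.Agent.helper12.PE

/-- `θ(4x) - θ(x) ≥ x` for large `x`. -/
lemma theta_four : ∃ X : ℕ, ∀ x : ℕ, X ≤ x →
    (x : ℝ) ≤ Chebyshev.theta (4 * x : ℕ) - Chebyshev.theta x := by
  refine ⟨2 ^ 24, fun x hx => ?_⟩
  have hx1 : (2 : ℝ) ^ 24 ≤ x := by exact_mod_cast hx
  have h1 := Chebyshev.theta_ge (4 * x)
  have h2 := Chebyshev.theta_le_log4_mul_x (x := (x : ℝ)) (by positivity)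
  have h4 : Real.log 4 = 2 * Real.log 2 := by
    rw [show (4 : ℝ) = 2 ^ 2 by norm_num, Real.log_pow]; norm_num
  have hl2 := Real.log_two_gt_d9
  have hl2' := Real.log_two_lt_d9
  -- write x = u^4
  set s := Real.sqrt x with hs
  have hs2 : s ^ 2 = x := Real.sq_sqrt (by positivity)
  have hs0 : (2 : ℝ) ^ 12 ≤ s := by
    rw [hs]; apply Real.le_sqrt_of_sq_le; norm_num at hx1 ⊢; linarith
  have hsq : Real.sqrt ((4 * x : ℕ) : ℝ) = 2 * s := by
    push_cast
    rw [Real.sqrt_mul (by norm_num), show (4 : ℝ) = 2 ^ 2 by norm_num, Real.sqrt_sq (by norm_num)]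
  set u := Real.sqrt s with hu
  have hu2 : u ^ 2 = s := Real.sq_sqrt (by linarith [show (0:ℝ) ≤ 2 ^ 12 by norm_num])
  have hu0 : (2 : ℝ) ^ 6 ≤ u := by
    rw [hu]; apply Real.le_sqrt_of_sq_le; norm_num at hs0 ⊢; linarith
  set v := Real.sqrt u with hv
  have hv2 : v ^ 2 = u := Real.sq_sqrt (by linarith [show (0:ℝ) ≤ 2 ^ 6 by norm_num])
  have hv0 : (8 : ℝ) ≤ v := by
    rw [hv]; apply Real.le_sqrt_of_sq_le; norm_num at hu0 ⊢; linarith
  have hxv : (x : ℝ) = v ^ 8 := by rw [← hs2, ← hu2, ← hv2]; ring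
  have hlogx : Real.log (4 * x : ℕ) ≤ 8 * (v / 8 * 1 + 1.1) + 2 * Real.log 2 := by
    push_cast
    rw [Real.log_mul (by norm_num) (by positivity), h4, hxv, Real.log_pow]
    have : Real.log v ≤ v / 8 + 1.1 := by
      have h5 : Real.log (v / 8) ≤ v / 8 - 1 := Real.log_le_sub_one_of_pos (by linarith)
      rw [Real.log_div (by linarith) (by norm_num)] at h5
      have h6 : Real.log 8 = 3 * Real.log 2 := by
        rw [show (8 : ℝ) = 2 ^ 3 by norm_num, Real.log_pow]; norm_num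
      rw [h6] at h5
      linarith
    push_cast
    linarith
  have hlogx' : Real.log (4 * x : ℕ) ≤ v + 11 := by linarith
  have hlog1 : Real.log ((4 * x : ℕ) + 1) ≤ v + 12 := by
    have h7 : Real.log (((4 * x : ℕ) : ℝ) + 1) ≤ Real.log (2 * (4 * x : ℕ)) := by
      apply Real.log_le_log (by positivity)
      push_cast
      linarith
    rw [Real.log_mul (by norm_num) (by
      push_cast
      linarith)] at h7
    linarith
  rw [hsq] at h1
  have hv8 : v ^ 8 = v ^ 4 * v ^ 4 := by ring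
  have hsv : s = v ^ 4 := by rw [← hu2, ← hv2]; ring
  have hv4 : (8 : ℝ) ^ 3 * v ≤ v ^ 4 := by
    have : (8 : ℝ) ^ 3 ≤ v ^ 3 := by gcongr
    nlinarith
  have hb : 2 * (2 * s) * Real.log (4 * x : ℕ) ≤ 4 * s * (v + 11) := by
    have : 0 ≤ 2 * (2 * s) := by linarith [show (0:ℝ) ≤ 2 ^ 12 by norm_num]
    nlinarith
  have hc : 4 * s * (v + 11) + (v + 12) ≤ 0.3 * x := by
    rw [hxv, hsv, hv8]
    have h8 : (0 : ℝ) ≤ v ^ 4 := by positivity
    have h9 : 4 * (v + 11) ≤ 0.2 * v ^ 4 := by norm_num at hv4; linarith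
    have h10 : v + 12 ≤ 0.1 * v ^ 4 * v ^ 4 := by
      have : (1 : ℝ) ≤ v ^ 4 := by
        have := one_le_pow₀ (n := 4) (by linarith : (1:ℝ) ≤ v)
        exact this
      norm_num at hv4
      nlinarith
    nlinarith
  push_cast at h1 ⊢
  push_cast at hb hlog1
  rw [h4] at h2
  nlinarith

lemma log_block {x : ℕ} (hx : 1 ≤ x) (h : (x : ℝ) ≤ Chebyshev.theta (4 * x : ℕ) - Chebyshev.theta x)
    (L : ℝ) (hL : Real.log (4 * x : ℕ) ≤ L) (hL0 : 0 < L) :
    1 / (4 * L) ≤ ∑ p ∈ (Ioc x (4 * x)).filter Nat.Prime, (1 : ℝ) / p := by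
  have e1 : Chebyshev.theta (4 * x : ℕ) - Chebyshev.theta x
      = ∑ p ∈ (Ioc x (4 * x)).filter Nat.Prime, Real.log p := by
    rw [Chebyshev.theta, Chebyshev.theta, Nat.floor_natCast, Nat.floor_natCast]
    rw [sub_eq_iff_eq_add', ← sum_union]
    · congr 1
      ext p
      simp only [mem_filter, mem_union, mem_Ioc]
      constructor
      · rintro ⟨⟨h1, h2⟩, h3⟩
        rcases le_or_gt p x with h4 | h4
        · exact Or.inl ⟨⟨h1, h4⟩, h3⟩
        · exact Or.inr ⟨⟨h4, h2⟩, h3⟩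
      · rintro (⟨⟨h1, h2⟩, h3⟩ | ⟨⟨h1, h2⟩, h3⟩)
        · exact ⟨⟨h1, by omega⟩, h3⟩
        · exact ⟨⟨by omega, h2⟩, h3⟩
    · rw [Finset.disjoint_left]
      intro p h1 h2
      simp only [mem_filter, mem_Ioc] at h1 h2
      omega
  rw [e1] at h
  have hx0 : (0 : ℝ) < x := by exact_mod_cast hx
  have h2 : ∑ p ∈ (Ioc x (4 * x)).filter Nat.Prime, Real.log p
      ≤ ∑ p ∈ (Ioc x (4 * x)).filter Nat.Prime, (4 * x * L) * ((1 : ℝ) / p) := by
    refine sum_le_sum fun p hp => ?_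
    simp only [mem_filter, mem_Ioc] at hp
    obtain ⟨⟨h1, h2⟩, h3⟩ := hp
    have hp0 : (0 : ℝ) < p := by exact_mod_cast h3.pos
    have hpx : (p : ℝ) ≤ 4 * x := by exact_mod_cast h2
    have h5 : Real.log p ≤ L := (Real.log_le_log hp0 (by exact_mod_cast h2)).trans hL
    have h6 : 1 ≤ 4 * x * ((1 : ℝ) / p) := by
      rw [mul_one_div, le_div_iff₀ hp0]; linarith
    calc Real.log p ≤ L := h5
      _ ≤ L * (4 * x * ((1 : ℝ) / p)) := by nlinarith
      _ = _ := by ring
  rw [← mul_sum] at h2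
  rw [div_le_iff₀ (by positivity)]
  have h3 := h.trans h2
  have : (x : ℝ) * 1 ≤ x * ((∑ p ∈ (Ioc x (4 * x)).filter Nat.Prime, (1 : ℝ) / p) * (4 * L)) := by
    calc (x : ℝ) * 1 = x := mul_one _
      _ ≤ _ := h3
      _ = _ := by ring
  exact le_of_mul_le_mul_left this hx0

lemma sum_blocks (y k : ℕ) (hy : 1 ≤ y) (L : ℝ) (hL0 : 0 < L)
    (h : ∀ x : ℕ, y ≤ x → (x : ℝ) ≤ Chebyshev.theta (4 * x : ℕ) - Chebyshev.theta x)
    (hL : Real.log (4 ^ k * y : ℕ) ≤ L) :
    k * (1 / (4 * L)) ≤ ∑ p ∈ (Ioc y (4 ^ k * y)).filter Nat.Prime, (1 : ℝ) / p := by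
  induction k with
  | zero => simp
  | succ k ih =>
    have hpos : 1 ≤ 4 ^ k * y := Nat.mul_pos (by positivity) hy
    have e : 4 ^ (k + 1) * y = 4 * (4 ^ k * y) := by ring
    have h1 : Real.log (4 ^ k * y : ℕ) ≤ L := by
      refine le_trans (Real.log_le_log (by exact_mod_cast hpos) ?_) hL
      exact_mod_cast (by rw [e]; omega : 4 ^ k * y ≤ 4 ^ (k + 1) * y)
    have hyk : y ≤ 4 ^ k * y := Nat.le_mul_of_pos_left y (by positivity)
    have h2 := log_block hpos (h (4 ^ k * y) hyk) L (by rw [← e]; exact hL) hL0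
    have h3 := ih h1
    have h4 : (Ioc y (4 ^ (k + 1) * y)).filter Nat.Prime
        = (Ioc y (4 ^ k * y)).filter Nat.Prime ∪ (Ioc (4 ^ k * y) (4 * (4 ^ k * y))).filter Nat.Prime := by
      ext p
      simp only [mem_filter, mem_union, mem_Ioc, e]
      constructor
      · rintro ⟨⟨h1, h2⟩, h3⟩
        rcases le_or_gt p (4 ^ k * y) with h4 | h4
        · exact Or.inl ⟨⟨h1, h4⟩, h3⟩
        · exact Or.inr ⟨⟨h4, h2⟩, h3⟩
      · rintro (⟨⟨h1, h2⟩, h3⟩ | ⟨⟨h1, h2⟩, h3⟩)
        · exact ⟨⟨h1, by omega⟩, h3⟩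
        · exact ⟨⟨by omega, h2⟩, h3⟩
    rw [h4, sum_union]
    · push_cast
      linarith
    · rw [Finset.disjoint_left]
      intro p h1 h2
      simp only [mem_filter, mem_Ioc] at h1 h2
      omega

/-- D. A set of primes in `[y, y ^ 2]` with prescribed small sum of reciprocals. -/
theorem exists_primes (κ : ℝ) (h0 : 0 < κ) (h1 : κ ≤ 1 / 100) : ∃ Y : ℕ, ∀ y : ℕ, Y ≤ y →
    ∃ P : Finset ℕ, (∀ p ∈ P, p.Prime ∧ y ≤ p ∧ p ≤ y ^ 2) ∧
      κ / 2 ≤ ∑ p ∈ P, (1 : ℝ) / p ∧ ∑ p ∈ P, (1 : ℝ) / p ≤ κ := by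
  obtain ⟨X, hX⟩ := theta_four
  refine ⟨max (max X (4 ^ 4)) (⌈2 / κ⌉₊), fun y hy => ?_⟩
  have hyX : X ≤ y := le_trans (le_trans (le_max_left _ _) (le_max_left _ _)) hy
  have hy4 : 4 ^ 4 ≤ y := le_trans (le_trans (le_max_right _ _) (le_max_left _ _)) hy
  have hyκ : 2 / κ ≤ y := le_trans (Nat.le_ceil _) (by exact_mod_cast le_trans (le_max_right _ _) hy)
  have hy0 : (0 : ℝ) < y := by exact_mod_cast (by omega : 0 < y)
  have hyinv : 1 / (y : ℝ) ≤ κ / 2 := by
    rw [div_le_div_iff₀ hy0 (by norm_num)]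
    rw [div_le_iff₀ h0] at hyκ
    linarith
  -- the total sum
  set k := Nat.log 4 y with hk
  have hk1 : 4 ^ k ≤ y := Nat.pow_log_le_self 4 (by omega)
  have hk2 : y < 4 ^ (k + 1) := Nat.lt_pow_succ_log_self (by norm_num) y
  have hk4 : 4 ≤ k := (Nat.le_log_iff_pow_le (by norm_num) (by omega)).mpr hy4
  have hylog : 0 < Real.log y := Real.log_pos (by exact_mod_cast (by omega : 1 < y))
  have htot : 1 / 100 ≤ ∑ p ∈ (Ioc y (y ^ 2)).filter Nat.Prime, (1 : ℝ) / p := by
    have h2 := sum_blocks y k (by omega) (2 * Real.log y) (by linarith)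
      (fun x hx => hX x (hyX.trans hx)) (by
        have e2 : 2 * Real.log y = Real.log ((y ^ 2 : ℕ) : ℝ) := by
          push_cast; rw [Real.log_pow]; norm_num
        rw [e2]
        have hpos : 0 < 4 ^ k * y := Nat.mul_pos (by positivity) (by omega)
        apply Real.log_le_log (by exact_mod_cast hpos)
        exact_mod_cast (by rw [pow_two]; exact Nat.mul_le_mul_right y hk1 : 4 ^ k * y ≤ y ^ 2))
    have h3 : ∑ p ∈ (Ioc y (4 ^ k * y)).filter Nat.Prime, (1 : ℝ) / p
        ≤ ∑ p ∈ (Ioc y (y ^ 2)).filter Nat.Prime, (1 : ℝ) / p := by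
      apply sum_le_sum_of_subset_of_nonneg
      · apply filter_subset_filter
        apply Ioc_subset_Ioc_right
        rw [pow_two]; exact Nat.mul_le_mul_right y hk1
      · intro p _ _; positivity
    refine le_trans ?_ (h2.trans h3)
    have h5 : Real.log y ≤ (k + 1) * (2 * Real.log 2) := by
      have : Real.log y ≤ Real.log ((4 ^ (k + 1) : ℕ) : ℝ) :=
        Real.log_le_log hy0 (by exact_mod_cast hk2.le)
      push_cast at this
      rw [Real.log_pow, show (4 : ℝ) = 2 ^ 2 by norm_num, Real.log_pow] at this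
      push_cast at this
      linarith
    have hl2' := Real.log_two_lt_d9
    have hk4' : (4 : ℝ) ≤ k := by exact_mod_cast hk4
    rw [mul_one_div, div_le_div_iff₀ (by norm_num) (by positivity)]
    nlinarith
  -- the greedy segment
  classical
  set f : ℕ → ℝ := fun m => ∑ p ∈ (Ioc y m).filter Nat.Prime, (1 : ℝ) / p with hf
  set m := Nat.findGreatest (fun m => f m ≤ κ) (y ^ 2) with hm
  have hfm : f m ≤ κ := by
    apply Nat.findGreatest_spec (P := fun m => f m ≤ κ) (Nat.zero_le _)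
    simp [hf, h0.le]
  have hmle : m ≤ y ^ 2 := Nat.findGreatest_le _
  refine ⟨(Ioc y m).filter Nat.Prime, ?_, ?_, hfm⟩
  · intro p hp
    simp only [mem_filter, mem_Ioc] at hp
    exact ⟨hp.2, hp.1.1.le, hp.1.2.trans hmle⟩
  · show κ / 2 ≤ f m
    rcases hmle.eq_or_lt with h2 | h2
    · have h3 : f m = ∑ p ∈ (Ioc y (y ^ 2)).filter Nat.Prime, (1 : ℝ) / p := by rw [h2]
      linarith
    · have h3 : κ < f (m + 1) := by
        by_contra h4
        push Not at h4
        have := Nat.findGreatest_is_greatest (P := fun m => f m ≤ κ) (n := y ^ 2) (k := m + 1)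
          (by rw [← hm]; omega) h2
        exact this h4
      have h4 : f (m + 1) ≤ f m + 1 / y := by
        have hsub : (Ioc y (m + 1)).filter Nat.Prime
            ⊆ insert (m + 1) ((Ioc y m).filter Nat.Prime) := by
          intro p hp
          simp only [mem_filter, mem_Ioc, mem_insert] at hp ⊢
          rcases Nat.lt_or_ge m p with h5 | h5
          · left; omega
          · right; exact ⟨⟨hp.1.1, h5⟩, hp.2⟩
        by_cases h6 : y < m + 1
        · calc f (m + 1) ≤ ∑ p ∈ insert (m + 1) ((Ioc y m).filter Nat.Prime), (1 : ℝ) / p :=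
                sum_le_sum_of_subset_of_nonneg hsub (fun p _ _ => by positivity)
            _ = 1 / ((m + 1 : ℕ) : ℝ) + f m := by
                rw [sum_insert (by simp)]
            _ ≤ 1 / y + f m := by
                gcongr
            _ = _ := by ring
        · have : (Ioc y (m + 1)) = ∅ := Ioc_eq_empty_iff.mpr h6
          have h7 : f (m + 1) = 0 := by simp [hf, this]
          have h8 : 0 ≤ f m := sum_nonneg fun p _ => by positivity
          rw [h7]; positivity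
      linarith

end Pool.Agent.helper12.PE
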