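import Mathlib
import Pool.Agent.helper12.PE.Fin
import Pool.Agent.helper12.PE.Arch
import Pool.Agent.helper12.PE.Match
import Pool.Agent.helper12.PE.Primes

set_option autoImplicit false
open Finset PowerSeries
open Pool.Agent.helper81 (EE)

namespace Pool.Agent.helper12.PE

/-- The index belonging to `M` (when `M ≥ j` and `M ≡ j mod 8`). -/
lemma index_facts {t b m j M : ℕ} (hj : 3 * j + 1 = 4 ^ m) (hM : (M : ℕ) ≡ 8 * b + j [MOD 8 * t])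
    (hge : 4 ^ m ≤ 3 * M + 1) :
    8 * ((M - j) / 8) + j = M ∧ (M - j) / 8 ≡ b [MOD t] ∧ 24 * ((M - j) / 8) + 4 ^ m = 3 * M + 1 := by
  have hjM : j ≤ M := by omega
  have h1 : M - j ≡ 8 * b [MOD 8 * t] := by
    have : (M - j) + j ≡ 8 * b + j [MOD 8 * t] := by rwa [Nat.sub_add_cancel hjM]
    exact Nat.ModEq.add_right_cancel' j this
  have h8 : 8 ∣ M - j := by
    have h2 : M - j ≡ 8 * b [MOD 8] := h1.of_mul_right t
    rw [← Nat.modEq_zero_iff_dvd]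
    exact h2.trans (Nat.modEq_zero_iff_dvd.mpr ⟨b, rfl⟩)
  obtain ⟨n, hn⟩ := h8
  have h3 : (M - j) / 8 = n := by omega
  rw [h3]
  refine ⟨by omega, ?_, by omega⟩
  rw [hn] at h1
  exact Nat.ModEq.mul_left_cancel' (by norm_num) h1

lemma err_eq {r : ℕ → ZMod 2} {m j M : ℕ} (hj : 3 * j + 1 = 4 ^ m) (n : ℕ) (hn : 8 * n + j = M) :
    err r m n = coeff M (DD ^ j) + RR r (4 ^ m) n := by
  rw [err, ← coeff_DD_pow hj, hn]

lemma exists_residue {q p : ℕ} (hpq : p.Coprime q) (hq : 1 < q) (a : ℕ) :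
    ∃ c, p * c ≡ a [MOD q] := by
  obtain ⟨d, _, hd⟩ := Nat.exists_mul_mod_eq_one_of_coprime hpq hq
  refine ⟨d * a, ?_⟩
  have h1 : p * d ≡ 1 [MOD q] := by
    rw [Nat.ModEq, hd, Nat.mod_eq_of_lt hq]
  have := h1.mul_right a
  rwa [one_mul, mul_assoc] at this

lemma r_congr {r : ℕ → ZMod 2} {t : ℕ} (hr : ∀ n, r (n + t) = r n) {a b : ℕ} (h : a ≡ b [MOD t]) :
    r a = r b := by
  rw [← r_mod hr a, ← r_mod hr b, h]

/-- For two multipliers of the same class one of the two dilated indices is an error. -/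
lemma pair_error {r : ℕ → ZMod 2} {t b m j p p' N c : ℕ} (ht : 1 ≤ t) (hr : ∀ n, r (n + t) = r n)
    (hb : r b = 1) (hj : 3 * j + 1 = 4 ^ m) (hc : p * c ≡ 8 * b + j [MOD 8 * t])
    (hpp : p ≡ p' [MOD 8 * t]) (hN : N ≡ c [MOD 8 * t])
    (hco : coeff (p * N) (DD ^ j) = coeff (p' * N) (DD ^ j))
    (h1 : ∃ i : ℕ, 1 ≤ i ∧ (24 * t * i - 1) ^ 2 * 4 ^ m ≤ 3 * p * N + 1 ∧
      3 * p * N + 1 < (24 * t * i + 1) ^ 2 * 4 ^ m)
    (h2 : ∃ i : ℕ, (24 * t * i + 1) ^ 2 * 4 ^ m ≤ 3 * p' * N + 1 ∧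
      3 * p' * N + 1 < (24 * t * i + 5) ^ 2 * 4 ^ m) :
    ∃ M, (M = p * N ∨ M = p' * N) ∧ 8 * ((M - j) / 8) + j = M ∧ (M - j) / 8 ≡ b [MOD t] ∧
      err r m ((M - j) / 8) ≠ 0 := by
  have hG : 1 ≤ 4 ^ m := Nat.one_le_pow _ _ (by norm_num)
  obtain ⟨i, hi, h1a, h1b⟩ := h1
  obtain ⟨i', h2a, h2b⟩ := h2
  rw [mul_assoc 3] at h1a h1b h2a h2b
  have hM1 : p * N ≡ 8 * b + j [MOD 8 * t] := (hN.mul_left p).trans hc
  have hM2 : p' * N ≡ 8 * b + j [MOD 8 * t] := ((hpp.symm).mul_right N).trans hM1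
  have hti : 1 ≤ t * i := Nat.mul_pos ht hi
  have hge1 : 4 ^ m ≤ 3 * (p * N) + 1 := by
    have : 1 * 4 ^ m ≤ (24 * t * i - 1) ^ 2 * 4 ^ m := by
      apply Nat.mul_le_mul_right
      apply Nat.one_le_pow
      have : 1 ≤ t * i := hti
      nlinarith [Nat.sub_add_cancel (show 1 ≤ 24 * t * i by nlinarith)]
    rw [one_mul] at this
    exact this.trans h1a
  have hge2 : 4 ^ m ≤ 3 * (p' * N) + 1 := by
    have : 1 * 4 ^ m ≤ (24 * t * i' + 1) ^ 2 * 4 ^ m := by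
      apply Nat.mul_le_mul_right
      apply Nat.one_le_pow
      omega
    rw [one_mul] at this
    exact this.trans h2a
  obtain ⟨a1, a2, a3⟩ := index_facts hj hM1 hge1
  obtain ⟨b1, b2, b3⟩ := index_facts hj hM2 hge2
  have e1 : err r m ((p * N - j) / 8) = coeff (p * N) (DD ^ j) := by
    rw [err_eq hj _ a1, RR_region0 hr hG hti (a3 ▸ h1a) (a3 ▸ h1b), add_zero]
  have e2 : err r m ((p' * N - j) / 8) = coeff (p * N) (DD ^ j) + 1 := by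
    rw [err_eq hj _ b1, RR_region1 hr hG (b3 ▸ h2a) (b3 ▸ h2b), ← hco, r_congr hr b2, hb]
  by_cases h0 : coeff (p * N) (DD ^ j) = 0
  · refine ⟨p' * N, Or.inr rfl, b1, b2, ?_⟩
    rw [e2, h0]; simp
  · exact ⟨p * N, Or.inl rfl, a1, a2, by rw [e1]; exact h0⟩

open Classical in
lemma card_bad (P : Finset ℕ) (κ : ℝ) (hκ : ∑ p ∈ P, (1 : ℝ) / p ≤ κ) (Z : ℕ) :
    (((Finset.Icc 1 Z).filter fun N => ∃ l ∈ P, l ∣ N).card : ℝ) ≤ κ * Z := by
  have h1 : (Finset.Icc 1 Z).filter (fun N => ∃ l ∈ P, l ∣ N) ⊆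
      P.biUnion fun l => (Finset.Ioc 0 Z).filter (l ∣ ·) := by
    intro N hN
    rw [mem_filter, mem_Icc] at hN
    obtain ⟨⟨hN1, hN2⟩, l, hl, hd⟩ := hN
    rw [mem_biUnion]
    exact ⟨l, hl, by rw [mem_filter, mem_Ioc]; exact ⟨⟨by omega, hN2⟩, hd⟩⟩
  have h2 : ((Finset.Icc 1 Z).filter fun N => ∃ l ∈ P, l ∣ N).card ≤ ∑ l ∈ P, Z / l := by
    refine (card_le_card h1).trans (card_biUnion_le.trans ?_)
    refine sum_le_sum fun l _ => ?_
    rw [Nat.Ioc_filter_dvd_card_eq_div]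
  calc (((Finset.Icc 1 Z).filter fun N => ∃ l ∈ P, l ∣ N).card : ℝ) ≤ ((∑ l ∈ P, Z / l : ℕ) : ℝ) := by
        exact_mod_cast h2
    _ = ∑ l ∈ P, ((Z / l : ℕ) : ℝ) := by push_cast; rfl
    _ ≤ ∑ l ∈ P, (Z : ℝ) / l := sum_le_sum fun l _ => Nat.cast_div_le
    _ = (∑ p ∈ P, (1 : ℝ) / p) * Z := by
        rw [sum_mul]; refine sum_congr rfl fun l _ => ?_; ring
    _ ≤ κ * Z := by gcongr

lemma pair_inj {P : Finset ℕ} {M : Finset (ℕ × ℕ)} (hP : ∀ p ∈ P, p.Prime)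
    (hM1 : ∀ e ∈ M, e.1 ∈ P ∧ e.2 ∈ P)
    (hM2 : ∀ e ∈ M, ∀ e' ∈ M, e ≠ e' → e.1 ≠ e'.1 ∧ e.1 ≠ e'.2 ∧ e.2 ≠ e'.1 ∧ e.2 ≠ e'.2)
    {e e' : ℕ × ℕ} (he : e ∈ M) (he' : e' ∈ M) {N N' K : ℕ}
    (hN' : ∀ l ∈ P, ¬ l ∣ N') (h : K = e.1 * N ∨ K = e.2 * N)
    (h' : K = e'.1 * N' ∨ K = e'.2 * N') : e = e' ∧ N = N' := by
  have key : ∀ l l' : ℕ, l ∈ P → l' ∈ P → K = l * N → K = l' * N' → l = l' ∧ N = N' := by
    intro l l' hl hl' h1 h2
    have hd : l ∣ l' * N' := by rw [← h2, h1]; exact dvd_mul_right _ _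
    rcases (hP l hl).dvd_mul.mp hd with h3 | h3
    · have h4 : l = l' := (Nat.prime_dvd_prime_iff_eq (hP l hl) (hP l' hl')).mp h3
      subst h4
      exact ⟨rfl, Nat.eq_of_mul_eq_mul_left (hP l hl).pos (h1.symm.trans h2)⟩
    · exact absurd h3 (hN' l hl)
  by_cases hee : e = e'
  · subst hee
    refine ⟨rfl, ?_⟩
    rcases h with h | h <;> rcases h' with h' | h'
    · exact (key _ _ (hM1 e he).1 (hM1 e he).1 h h').2
    · exact (key _ _ (hM1 e he).1 (hM1 e he).2 h h').2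
    · exact (key _ _ (hM1 e he).2 (hM1 e he).1 h h').2
    · exact (key _ _ (hM1 e he).2 (hM1 e he).2 h h').2
  · exfalso
    obtain ⟨a1, a2, a3, a4⟩ := hM2 e he e' he' hee
    rcases h with h | h <;> rcases h' with h' | h'
    · exact a1 (key _ _ (hM1 e he).1 (hM1 e' he').1 h h').1
    · exact a2 (key _ _ (hM1 e he).1 (hM1 e' he').2 h h').1
    · exact a3 (key _ _ (hM1 e he).2 (hM1 e' he').1 h h').1
    · exact a4 (key _ _ (hM1 e he).2 (hM1 e' he').2 h h').1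

open Classical in
theorem many_errors {r : ℕ → ZMod 2} {t b m j : ℕ} (ht : 1 ≤ t) (hr : ∀ n, r (n + t) = r n)
    (hb : r b = 1) (hj : 3 * j + 1 = 4 ^ m) (X y : ℕ) (P : Finset ℕ) (κ : ℝ)
    (hκ : κ = 1 / (128 * (24 * t) ^ 2 * (8 * t)))
    (hP : ∀ p ∈ P, p.Prime ∧ y ≤ p ∧ p ≤ y ^ 2)
    (hs1 : κ / 2 ≤ ∑ p ∈ P, (1 : ℝ) / p) (hs2 : ∑ p ∈ P, (1 : ℝ) / p ≤ κ)
    (hyq : 8 * t < y) (hy2 : ((8 * t * 2 ^ (j + 1) : ℕ) : ℝ) * ((24 * t : ℕ) + 1) / y ≤ κ / 4)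
    (hX : 250 * (24 * t) ^ 2 * (8 * t) ^ 2 * y ^ 4 * 4 ^ m ≤ X) :
    κ * X / (384 * (24 * t) ^ 2 * (8 * t)) ≤
      (((range (X + 1)).filter fun n => n ≡ b [MOD t] ∧ err r m n ≠ 0).card : ℝ) := by
  have hG : 1 ≤ 4 ^ m := Nat.one_le_pow _ _ (by norm_num)
  have hy1 : 1 ≤ y := by omega
  obtain ⟨V, hV, hVp⟩ := hecke_finite j
  have hp2 : ∀ p ∈ P, p ≠ 2 := fun p hp => by have := (hP p hp).2.1; omega
  choose! v hv hvN using hVp
  -- matching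
  obtain ⟨M, hM1, hM2, hM3⟩ := exists_matching P y (8 * t * 2 ^ (j + 1)) (24 * t) hy1 (by omega)
    (fun p hp => (hP p hp).2.1) (fun p => (p % (8 * t), v p)) (range (8 * t) ×ˢ V)
    (by rw [card_product, card_range]; exact Nat.mul_le_mul_left _ hV)
    (fun p hp => by
      rw [mem_product, mem_range]
      exact ⟨Nat.mod_lt _ (by omega), hv p (hP p hp).1 (hp2 p hp)⟩)
  -- residues
  have hc : ∀ e : ℕ × ℕ, e ∈ M → ∃ c, e.1 * c ≡ 8 * b + j [MOD 8 * t] := by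
    intro e he
    apply exists_residue _ (by omega)
    have hpr := (hP e.1 (hM1 e he).1).1
    rw [hpr.coprime_iff_not_dvd]
    intro hd
    have := Nat.le_of_dvd (by omega) hd
    have := (hP e.1 (hM1 e he).1).2.1
    omega
  choose! c hc using hc
  -- the sets of multipliers
  let Z : ℕ × ℕ → ℕ := fun e => 8 * X / e.2
  let A : ℕ × ℕ → Finset ℕ := fun e => (Finset.Icc 1 (Z e)).filter fun N =>
      N % (8 * t) = c e % (8 * t) ∧
      (∃ i : ℕ, 1 ≤ i ∧ (24 * t * i - 1) ^ 2 * 4 ^ m ≤ 3 * e.1 * N + 1 ∧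
        3 * e.1 * N + 1 < (24 * t * i + 1) ^ 2 * 4 ^ m) ∧
      (∃ i : ℕ, (24 * t * i + 1) ^ 2 * 4 ^ m ≤ 3 * e.2 * N + 1 ∧
        3 * e.2 * N + 1 < (24 * t * i + 5) ^ 2 * 4 ^ m)
  let B : ℕ × ℕ → Finset ℕ := fun e => (Finset.Icc 1 (Z e)).filter fun N => ∃ l ∈ P, l ∣ N
  let T := M.sigma fun e => A e \ B e
  -- the errors
  have herr : ∀ x ∈ T, ∃ K, (K = x.1.1 * x.2 ∨ K = x.1.2 * x.2) ∧ 8 * ((K - j) / 8) + j = K ∧
      (K - j) / 8 ≡ b [MOD t] ∧ err r m ((K - j) / 8) ≠ 0 := by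
    rintro ⟨e, N⟩ hx
    rw [mem_sigma, mem_sdiff] at hx
    obtain ⟨he, hA, hB⟩ := hx
    simp only at he hA hB ⊢
    rw [mem_filter] at hA
    obtain ⟨hN, hNc, h1, h2⟩ := hA
    obtain ⟨e1, e2, e3, e4, e5⟩ := hM1 e he
    have hNP : ∀ l ∈ P, ¬ l ∣ N := by
      intro l hl hd
      exact hB (mem_filter.mpr ⟨hN, l, hl, hd⟩)
    have hcl : e.1 % (8 * t) = e.2 % (8 * t) := congrArg Prod.fst e5
    have hcv : v e.1 = v e.2 := congrArg Prod.snd e5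
    refine pair_error ht hr hb hj (hc e he) hcl hNc ?_ h1 h2
    rw [← hvN e.1 (hP e.1 e1).1 (hp2 e.1 e1) N (hNP e.1 e1), hcv,
      hvN e.2 (hP e.2 e2).1 (hp2 e.2 e2) N (hNP e.2 e2)]
  choose! K hK1 hK2 hK3 hK4 using herr
  -- injectivity
  have hinj : Set.InjOn (fun x => (K x - j) / 8) (T : Set (Σ _ : ℕ × ℕ, ℕ)) := by
    rintro ⟨e, N⟩ hx ⟨e', N'⟩ hx' hKK
    rw [Finset.mem_coe] at hx hx'
    have h1 : K ⟨e, N⟩ = K ⟨e', N'⟩ := by
      rw [← hK2 _ hx, ← hK2 _ hx']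
      simp only at hKK
      rw [hKK]
    have h2 := hK1 _ hx
    have h3 := hK1 _ hx'
    rw [← h1] at h3
    rw [mem_sigma, mem_sdiff] at hx hx'
    have hN' : ∀ l ∈ P, ¬ l ∣ N' := by
      intro l hl hd
      exact hx'.2.2 (mem_filter.mpr ⟨(mem_filter.mp hx'.2.1).1, l, hl, hd⟩)
    obtain ⟨h4, h5⟩ := pair_inj (fun p hp => (hP p hp).1) (fun e he => ⟨(hM1 e he).1, (hM1 e he).2.1⟩)
      hM2 hx.1 hx'.1 hN' h2 h3
    simp only at h4 h5
    subst h4 h5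
    rfl
  have hmaps : ∀ x ∈ T, (K x - j) / 8 ∈
      (range (X + 1)).filter fun n => n ≡ b [MOD t] ∧ err r m n ≠ 0 := by
    rintro ⟨e, N⟩ hx
    rw [mem_filter, mem_range]
    refine ⟨?_, hK3 _ hx, hK4 _ hx⟩
    have h2 := hK1 _ hx
    rw [mem_sigma, mem_sdiff] at hx
    obtain ⟨he, hA, -⟩ := hx
    simp only at he hA h2
    have hN : N ≤ 8 * X / e.2 := (mem_Icc.mp (mem_filter.mp hA).1).2
    obtain ⟨e1, e2, e3, -⟩ := hM1 e he
    have h3 : e.2 * N ≤ 8 * X := (Nat.mul_le_mul_left _ hN).trans (Nat.mul_div_le _ _)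
    have h4 : e.1 * N ≤ e.2 * N := Nat.mul_le_mul_right _ e3.le
    have h5 : K ⟨e, N⟩ ≤ 8 * X := by
      rcases h2 with h2 | h2 <;> rw [h2]
      · exact h4.trans h3
      · exact h3
    have : (K ⟨e, N⟩ - j) / 8 ≤ X := by omega
    omega
  have hcard : T.card ≤ ((range (X + 1)).filter fun n => n ≡ b [MOD t] ∧ err r m n ≠ 0).card :=
    Finset.card_le_card_of_injOn _ hmaps hinj
  have hAB : ∀ e ∈ M, (X : ℝ) / (32 * (24 * t) ^ 2 * (8 * t)) * (1 / e.2) ≤ ((A e \ B e).card : ℝ) := by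
    intro e he
    obtain ⟨e1, e2, e3, e4, e5⟩ := hM1 e he
    obtain ⟨p1, p1a, p1b⟩ := hP e.1 e1
    obtain ⟨p2, p2a, p2b⟩ := hP e.2 e2
    have hZ1 : 1000 * (24 * t) ^ 2 * (8 * t) ^ 2 * e.1 * 4 ^ m ≤ Z e := by
      show _ ≤ 8 * X / e.2
      rw [Nat.le_div_iff_mul_le p2.pos]
      have h1 : e.1 * e.2 ≤ y ^ 4 := by
        calc e.1 * e.2 ≤ y ^ 2 * y ^ 2 := Nat.mul_le_mul p1b p2b
          _ = y ^ 4 := by ring
      calc 1000 * (24 * t) ^ 2 * (8 * t) ^ 2 * e.1 * 4 ^ m * e.2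
          = 4 * (250 * (24 * t) ^ 2 * (8 * t) ^ 2 * (e.1 * e.2) * 4 ^ m) := by ring
        _ ≤ 4 * (250 * (24 * t) ^ 2 * (8 * t) ^ 2 * y ^ 4 * 4 ^ m) := by gcongr
        _ ≤ 4 * X := by gcongr
        _ ≤ 8 * X := by omega
    have hA1 : Z e ≤ 64 * (24 * t) ^ 2 * (8 * t) * (A e).card :=
      count_arch (24 * t) (8 * t) (4 ^ m) e.1 e.2 (c e) (Z e) (by omega) (by omega) hG p1.one_le e3 e4 hZ1
    have hB1 : ((B e).card : ℝ) ≤ κ * Z e := card_bad P κ hs2 (Z e)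
    have ht' : (0 : ℝ) < t := by exact_mod_cast ht
    have hp0 : (0 : ℝ) < e.2 := by exact_mod_cast p2.pos
    have hC : (0 : ℝ) < (24 * t) ^ 2 * (8 * t) := by positivity
    set C : ℝ := (24 * t) ^ 2 * (8 * t) with hCdef
    have hA2 : (Z e : ℝ) / (64 * C) ≤ (A e).card := by
      rw [div_le_iff₀ (by positivity)]
      have : ((Z e : ℕ) : ℝ) ≤ ((64 * (24 * t) ^ 2 * (8 * t) * (A e).card : ℕ) : ℝ) := by
        exact_mod_cast hA1
      push_cast at this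
      calc (Z e : ℝ) ≤ _ := this
        _ = _ := by rw [hCdef]; ring
    have hκ' : κ = 1 / (128 * C) := by rw [hκ, hCdef]; ring
    have h3 : ((A e).card : ℝ) - (B e).card ≤ ((A e \ B e).card : ℝ) := by
      have := Finset.le_card_sdiff (B e) (A e)
      have h4 : (A e).card ≤ (A e \ B e).card + (B e).card := by omega
      have h5 : ((A e).card : ℝ) ≤ (A e \ B e).card + (B e).card := by exact_mod_cast h4
      linarith
    have hZ2 : 4 * (X : ℝ) / e.2 ≤ Z e := by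
      have h6 : (8 * X : ℝ) / e.2 < (Z e : ℝ) + 1 := by
        have := Nat.lt_succ_floor ((8 * X : ℝ) / e.2)
        have h7 : ⌊(8 * X : ℝ) / e.2⌋₊ = 8 * X / e.2 := by
          rw [show (8 * X : ℝ) = ((8 * X : ℕ) : ℝ) by push_cast; ring, Nat.floor_div_natCast, Nat.floor_natCast]
        have h8 := Nat.lt_floor_add_one ((8 * X : ℝ) / e.2)
        rw [h7] at h8
        exact h8
      have hZ3 : 1 ≤ Z e := by
        refine le_trans ?_ hZ1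
        have := p1.one_le
        have : 0 < 1000 * (24 * t) ^ 2 * (8 * t) ^ 2 * e.1 * 4 ^ m := by positivity
        omega
      have hZ4 : (1 : ℝ) ≤ Z e := by exact_mod_cast hZ3
      have h9 : 4 * (X : ℝ) / e.2 = (8 * X : ℝ) / e.2 / 2 := by ring
      rw [h9]
      linarith
    calc (X : ℝ) / (32 * (24 * t) ^ 2 * (8 * t)) * (1 / e.2)
        = (4 * (X : ℝ) / e.2) / (128 * C) := by rw [hCdef]; field_simp; ring
      _ ≤ (Z e : ℝ) / (128 * C) := by gcongr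
      _ = (Z e : ℝ) / (64 * C) - κ * Z e := by rw [hκ']; field_simp; ring
      _ ≤ (A e).card - (B e).card := by linarith
      _ ≤ _ := h3
  have hsum : (X : ℝ) / (32 * (24 * t) ^ 2 * (8 * t)) * ∑ e ∈ M, (1 : ℝ) / e.2 ≤ (T.card : ℝ) := by
    rw [card_sigma, mul_sum]
    push_cast
    exact sum_le_sum hAB
  have hcard' : (T.card : ℝ) ≤
      (((range (X + 1)).filter fun n => n ≡ b [MOD t] ∧ err r m n ≠ 0).card : ℝ) := by
    exact_mod_cast hcard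
  refine le_trans ?_ (hsum.trans hcard')
  have hM4 : κ / 12 ≤ ∑ e ∈ M, (1 : ℝ) / e.2 := by linarith
  calc κ * X / (384 * (24 * t) ^ 2 * (8 * t))
      = (X : ℝ) / (32 * (24 * t) ^ 2 * (8 * t)) * (κ / 12) := by
        have ht' : (t : ℝ) ≠ 0 := by
          have : (0 : ℝ) < t := by exact_mod_cast ht
          exact this.ne'
        field_simp; ring
    _ ≤ _ := by gcongr

end Pool.Agent.helper12.PE
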