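import Mathlib
import Pool.Agent.helper12.PE.Main

set_option autoImplicit false
open Finset PowerSeries

namespace Pool.Agent.helper12.PE

lemma exists_j (m : ℕ) : ∃ j, 3 * j + 1 = 4 ^ m ∧ m ≤ j := by
  induction m with
  | zero => exact ⟨0, by norm_num, le_rfl⟩
  | succ m ih =>
    obtain ⟨j, hj, hmj⟩ := ih
    exact ⟨4 * j + 1, by rw [pow_succ]; omega, by omega⟩

/-- choice of the level `m` -/
lemma exists_level (C i X : ℕ) (hC : 1 ≤ C) (hX1 : C ^ 2 ≤ X) (hX2 : C * 4 ^ (4 ^ (i + 1)) ≤ X) :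
    ∃ m, i ≤ m ∧ C * 4 ^ (4 ^ m) ≤ X ∧ Real.log X ≤ 12 * 4 ^ m := by
  set A := X / C with hA
  have hA1 : 4 ^ (4 ^ (i + 1)) ≤ A := by
    rw [hA, Nat.le_div_iff_mul_le hC, mul_comm]; exact hX2
  have hA0 : A ≠ 0 := by
    have : 0 < 4 ^ (4 ^ (i + 1)) := by positivity
    omega
  set L := Nat.log 4 A with hL
  have hL1 : 4 ^ (i + 1) ≤ L := (Nat.le_log_iff_pow_le (by norm_num) hA0).mpr hA1
  have hL0 : L ≠ 0 := by
    have : 0 < 4 ^ (i + 1) := by positivity
    omega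
  set m := Nat.log 4 L with hm
  have hm1 : i + 1 ≤ m := (Nat.le_log_iff_pow_le (by norm_num) hL0).mpr hL1
  have h1 : 4 ^ m ≤ L := Nat.pow_log_le_self 4 hL0
  have h2 : 4 ^ L ≤ A := Nat.pow_log_le_self 4 hA0
  have h3 : L < 4 ^ (m + 1) := Nat.lt_pow_succ_log_self (by norm_num) L
  have h4 : A < 4 ^ (L + 1) := Nat.lt_pow_succ_log_self (by norm_num) A
  refine ⟨m, by omega, ?_, ?_⟩
  · have h5 : 4 ^ (4 ^ m) ≤ A := (Nat.pow_le_pow_right (by norm_num) h1).trans h2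
    calc C * 4 ^ (4 ^ m) ≤ C * A := Nat.mul_le_mul_left C h5
      _ ≤ X := Nat.mul_div_le _ _
  · have h5 : X ≤ C * 4 ^ (4 ^ (m + 1)) := by
      have h6 : X < C * (A + 1) := by
        have := Nat.lt_mul_div_succ X (by omega : 0 < C)
        exact this
      have h7 : A + 1 ≤ 4 ^ (4 ^ (m + 1)) := by
        refine le_trans h4 (Nat.pow_le_pow_right (by norm_num) h3)
      exact h6.le.trans (Nat.mul_le_mul_left _ h7)
    have hX0 : 0 < X := lt_of_lt_of_le (by positivity) hX1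
    have hX0' : (0 : ℝ) < X := by exact_mod_cast hX0
    have hC' : (1 : ℝ) ≤ C := by exact_mod_cast hC
    have h8 : Real.log X ≤ Real.log C + 4 ^ (m + 1) * Real.log 4 := by
      have h9 : Real.log X ≤ Real.log ((C * 4 ^ (4 ^ (m + 1)) : ℕ) : ℝ) :=
        Real.log_le_log hX0' (by exact_mod_cast h5)
      push_cast at h9
      rw [Real.log_mul (by positivity) (by positivity), Real.log_pow] at h9
      push_cast at h9
      exact h9
    have h10 : 2 * Real.log C ≤ Real.log X := by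
      have : Real.log ((C ^ 2 : ℕ) : ℝ) ≤ Real.log X :=
        Real.log_le_log (by positivity) (by exact_mod_cast hX1)
      push_cast at this
      rw [Real.log_pow] at this
      push_cast at this
      exact this
    have h11 : Real.log 4 = 2 * Real.log 2 := by
      rw [show (4 : ℝ) = 2 ^ 2 by norm_num, Real.log_pow]; norm_num
    have h12 := Real.log_two_lt_d9
    have h13 : (0 : ℝ) < 4 ^ m := by positivity
    rw [h11, pow_succ] at h8
    nlinarith

open Classical in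
theorem main_periodic {r : ℕ → ZMod 2} {t i a b : ℕ} (ht : 1 ≤ t) (hr : ∀ n, r (n + t) = r n)
    (hb : r b = 1) (hba : b % 2 ^ i = a % 2 ^ i) :
    ∃ c : ℝ, 0 < c ∧ ∃ X0 : ℕ, ∀ X : ℕ, X0 ≤ X → c * √(X * Real.log X) ≤
      (((range (X + 1)).filter fun n => n % 2 ^ i = a % 2 ^ i ∧
        (Fintype.card (Nat.Partition n) : ZMod 2) ≠ r n).card : ℝ) := by
  -- the new period
  set s := t * 2 ^ i with hs
  have hs1 : 1 ≤ s := Nat.mul_pos ht (by positivity)
  have hrs : ∀ n, r (n + s) = r n := by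
    intro n
    rw [← r_mod hr (n + s), hs, Nat.add_mul_mod_self_left, r_mod hr]
  have hs1' : (1 : ℝ) ≤ s := by exact_mod_cast hs1
  have hs0' : (0 : ℝ) < s := by linarith
  set κ : ℝ := 1 / (128 * (24 * s) ^ 2 * (8 * s)) with hκ
  have hκ0 : 0 < κ := by positivity
  have hκ1 : κ ≤ 1 / 100 := by
    rw [hκ]
    apply one_div_le_one_div_of_le (by norm_num)
    have : (1 : ℝ) ≤ s ^ 3 := one_le_pow₀ hs1'
    nlinarith
  obtain ⟨Y, hY⟩ := exists_primes κ hκ0 hκ1
  set C1 : ℕ := max Y (max (8 * s + 1) ⌈4 * (8 * s * (24 * s + 1)) / κ⌉₊) with hC1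
  have hC1a : Y ≤ C1 := le_max_left _ _
  have hC1b : 8 * s + 1 ≤ C1 := le_trans (le_max_left _ _) (le_max_right _ _)
  have hC1c' : ⌈4 * (8 * s * (24 * s + 1)) / κ⌉₊ ≤ C1 := le_trans (le_max_right _ _) (le_max_right _ _)
  have hC1c : 4 * (8 * s * (24 * s + 1)) / κ ≤ C1 :=
    le_trans (Nat.le_ceil _) (Nat.cast_le.mpr hC1c')
  set C2 : ℕ := 4000 * (24 * s) ^ 2 * (8 * s) ^ 2 * C1 ^ 4 with hC2
  have hC2' : 1 ≤ C2 := by
    have : 1 ≤ C1 := by omega
    rw [hC2]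
    exact Nat.pos_of_ne_zero (by positivity)
  set C0 : ℝ := κ / (384 * (24 * s) ^ 2 * (8 * s)) with hC0
  have hC0' : 0 < C0 := by positivity
  refine ⟨C0 / 12, by positivity, max (C2 ^ 2) (C2 * 4 ^ (4 ^ (i + 1))), fun X hX => ?_⟩
  obtain ⟨m, hm1, hm2, hm3⟩ := exists_level C2 i X hC2' ((le_max_left _ _).trans hX)
    ((le_max_right _ _).trans hX)
  obtain ⟨j, hj, hmj⟩ := exists_j m
  have hy : Y ≤ C1 * 2 ^ (j + 1) := hC1a.trans (Nat.le_mul_of_pos_right _ (by positivity))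
  obtain ⟨P, hP, hP1, hP2⟩ := hY _ hy
  have h1 := many_errors hs1 hrs hb hj X (C1 * 2 ^ (j + 1)) P κ hκ hP hP1 hP2
    (by
      have h2 : C1 ≤ C1 * 2 ^ (j + 1) := Nat.le_mul_of_pos_right _ (by positivity)
      omega)
    (by
      have hC1p : (0 : ℝ) < C1 := by exact_mod_cast (by omega : 0 < C1)
      push_cast
      rw [div_le_iff₀ hκ0] at hC1c
      rw [div_le_div_iff₀ (by positivity) (by norm_num)]
      have h3 : (0 : ℝ) < 2 ^ (j + 1) := by positivity
      nlinarith)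
    (by
      refine le_trans ?_ hm2
      have h4 : 2 ^ (4 * j) * 4 ^ m ≤ 4 ^ (4 ^ m) := by
        rw [show (4 : ℕ) = 2 ^ 2 by norm_num, ← pow_mul, ← pow_mul, ← pow_add]
        apply Nat.pow_le_pow_right (by norm_num)
        rw [pow_mul, show (2 : ℕ) ^ 2 = 4 by norm_num, ← hj]
        omega
      calc 250 * (24 * s) ^ 2 * (8 * s) ^ 2 * (C1 * 2 ^ (j + 1)) ^ 4 * 4 ^ m
          = C2 * (2 ^ (4 * j) * 4 ^ m) := by rw [hC2]; ring
        _ ≤ C2 * 4 ^ (4 ^ m) := Nat.mul_le_mul_left _ h4)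
  have hdiv : 2 ^ i ∣ 4 ^ m := by
    rw [show (4 : ℕ) = 2 ^ 2 by norm_num, ← pow_mul]
    exact pow_dvd_pow _ (by omega)
  have h2 := err_card_le r m i a X hdiv
  set B := ((range (X + 1)).filter fun n => n % 2 ^ i = a % 2 ^ i ∧
        (Fintype.card (Nat.Partition n) : ZMod 2) ≠ r n).card with hB
  have h3 : ((range (X + 1)).filter fun n => n ≡ b [MOD s] ∧ err r m n ≠ 0).card ≤
      ((range (X + 1)).filter (fun n => n % 2 ^ i = a % 2 ^ i ∧ err r m n ≠ 0)).card := by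
    apply card_le_card
    intro n hn
    rw [mem_filter] at hn ⊢
    refine ⟨hn.1, ?_, hn.2.2⟩
    have h4 : n ≡ b [MOD 2 ^ i] := hn.2.1.of_mul_left t
    exact h4.trans hba
  have h5 : C0 * X ≤ B * (2 * (Nat.sqrt (X / 4 ^ m) : ℝ) + 1) := by
    have h6 : κ * X / (384 * (24 * s) ^ 2 * (8 * s)) = C0 * X := by rw [hC0]; ring
    rw [← h6]
    refine h1.trans ?_
    have h7 := h3.trans h2
    exact_mod_cast h7
  -- real square roots
  have hG0 : (0 : ℝ) < 4 ^ m := by positivity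
  have hX4 : 4 ^ m ≤ X := by
    have h8 : 4 ^ m ≤ 4 ^ (4 ^ m) := by
      apply Nat.pow_le_pow_right (by norm_num)
      exact (Nat.lt_pow_self (by norm_num)).le
    calc 4 ^ m ≤ 4 ^ (4 ^ m) := h8
      _ ≤ C2 * 4 ^ (4 ^ m) := Nat.le_mul_of_pos_left _ hC2'
      _ ≤ X := hm2
  have hX4' : (4 : ℝ) ^ m ≤ X := by exact_mod_cast hX4
  have hXpos : (0 : ℝ) < X := lt_of_lt_of_le hG0 hX4'
  set u := √(X : ℝ) with hu
  set g := √((4 : ℝ) ^ m) with hg
  have hu2 : u ^ 2 = X := Real.sq_sqrt hXpos.le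
  have hg2 : g ^ 2 = 4 ^ m := Real.sq_sqrt hG0.le
  have hg0 : 0 < g := Real.sqrt_pos.mpr hG0
  have hu0 : 0 < u := Real.sqrt_pos.mpr hXpos
  have hgu : g ≤ u := Real.sqrt_le_sqrt hX4'
  have h9 : (Nat.sqrt (X / 4 ^ m) : ℝ) ≤ u / g := by
    rw [le_div_iff₀ hg0]
    have h10 : (Nat.sqrt (X / 4 ^ m)) ^ 2 * 4 ^ m ≤ X := by
      calc (Nat.sqrt (X / 4 ^ m)) ^ 2 * 4 ^ m ≤ (X / 4 ^ m) * 4 ^ m :=
            Nat.mul_le_mul_right _ (Nat.sqrt_le' _)
        _ ≤ X := Nat.div_mul_le_self _ _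
    have h11 : ((Nat.sqrt (X / 4 ^ m) : ℝ)) ^ 2 * 4 ^ m ≤ X := by exact_mod_cast h10
    have h12 : ((Nat.sqrt (X / 4 ^ m) : ℝ) * g) ^ 2 ≤ u ^ 2 := by
      rw [mul_pow, hg2, hu2]; exact h11
    exact (pow_le_pow_iff_left₀ (by positivity) hu0.le (by norm_num)).mp h12
  have h13 : (2 * (Nat.sqrt (X / 4 ^ m) : ℝ) + 1) ≤ 3 * (u / g) := by
    have : 1 ≤ u / g := by rw [le_div_iff₀ hg0]; linarith
    linarith
  have h14 : C0 * u * g ≤ 3 * B := by
    have h15 : C0 * u ^ 2 ≤ B * (3 * (u / g)) := by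
      rw [hu2]
      refine h5.trans ?_
      exact mul_le_mul_of_nonneg_left h13 (by positivity)
    have h16 : C0 * u ^ 2 * g ≤ 3 * B * u := by
      calc C0 * u ^ 2 * g ≤ B * (3 * (u / g)) * g := mul_le_mul_of_nonneg_right h15 hg0.le
        _ = 3 * B * u := by field_simp
    have h17 : (C0 * u * g) * u ≤ (3 * B) * u := by
      calc (C0 * u * g) * u = C0 * u ^ 2 * g := by ring
        _ ≤ _ := h16
    exact le_of_mul_le_mul_right h17 hu0
  have h18 : √(X * Real.log X) ≤ 4 * (u * g) := by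
    have h19 : (X : ℝ) * Real.log X ≤ (4 * (u * g)) ^ 2 := by
      calc (X : ℝ) * Real.log X ≤ X * (12 * 4 ^ m) := by gcongr
        _ ≤ 16 * X * 4 ^ m := by nlinarith [mul_pos hXpos hG0]
        _ = (4 * (u * g)) ^ 2 := by rw [mul_pow, mul_pow, hu2, hg2]; ring
    exact Real.sqrt_le_iff.mpr ⟨by positivity, h19⟩
  calc C0 / 12 * √(X * Real.log X) ≤ C0 / 12 * (4 * (u * g)) := by gcongr
    _ = (C0 * u * g) / 3 := by ring
    _ ≤ B := by linarith

open Classical in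
/-- The eventually periodic version. -/
theorem main {r : ℕ → ZMod 2} {t N₀ i a b : ℕ} (ht : 1 ≤ t) (hr : ∀ n, N₀ ≤ n → r (n + t) = r n)
    (hN : N₀ ≤ b) (hb : r b = 1) (hba : b % 2 ^ i = a % 2 ^ i) :
    ∃ c : ℝ, 0 < c ∧ ∃ X0 : ℕ, ∀ X : ℕ, X0 ≤ X → c * √(X * Real.log X) ≤
      (((range (X + 1)).filter fun n => n % 2 ^ i = a % 2 ^ i ∧
        (Fintype.card (Nat.Partition n) : ZMod 2) ≠ r n).card : ℝ) := by
  have hk : ∀ k n, N₀ ≤ n → r (n + t * k) = r n := by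
    intro k
    induction k with
    | zero => simp
    | succ k ih =>
      intro n hn
      rw [mul_add, mul_one, ← add_assoc, hr _ (by omega), ih n hn]
  obtain ⟨c, hc, X0, h⟩ := main_periodic (r := fun n => r (n + t * N₀)) ht
    (fun n => by
      have : N₀ ≤ n + t * N₀ := le_trans (Nat.le_mul_of_pos_left _ ht) (Nat.le_add_left _ _)
      rw [← hr _ this]
      congr 1
      ring) (by show r (b + t * N₀) = 1; rw [hk _ _ hN, hb]) hba
  refine ⟨c / 2, by positivity, max X0 (max 3 ⌈(2 * N₀ / c) ^ 2⌉₊), fun X hX => ?_⟩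
  have hX1 : X0 ≤ X := (le_max_left _ _).trans hX
  have hX2 : 3 ≤ X := ((le_max_left _ _).trans (le_max_right _ _)).trans hX
  have hX3 : (2 * N₀ / c) ^ 2 ≤ X := (Nat.le_ceil _).trans
    (by exact_mod_cast ((le_max_right _ _).trans (le_max_right _ _)).trans hX)
  have hX2' : (3 : ℝ) ≤ X := by exact_mod_cast hX2
  have h1 := h X hX1
  set S := (range (X + 1)).filter fun n => n % 2 ^ i = a % 2 ^ i ∧
        (Fintype.card (Nat.Partition n) : ZMod 2) ≠ r n with hS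
  have h2 : ((range (X + 1)).filter fun n => n % 2 ^ i = a % 2 ^ i ∧
        (Fintype.card (Nat.Partition n) : ZMod 2) ≠ r (n + t * N₀)).card ≤ S.card + N₀ := by
    have : (range (X + 1)).filter (fun n => n % 2 ^ i = a % 2 ^ i ∧
        (Fintype.card (Nat.Partition n) : ZMod 2) ≠ r (n + t * N₀)) ⊆ S ∪ range N₀ := by
      intro n hn
      rw [mem_filter] at hn
      rw [mem_union, hS, mem_filter]
      rcases Nat.lt_or_ge n N₀ with h3 | h3
      · right; exact mem_range.mpr h3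
      · left; rw [← hk N₀ n h3]; exact hn
    calc _ ≤ (S ∪ range N₀).card := card_le_card this
      _ ≤ S.card + (range N₀).card := card_union_le _ _
      _ = S.card + N₀ := by rw [card_range]
  have h3 : c * √(X * Real.log X) ≤ S.card + N₀ := h1.trans (by exact_mod_cast h2)
  have h4 : (N₀ : ℝ) ≤ c / 2 * √(X * Real.log X) := by
    have h5 : 2 * N₀ / c ≤ √(X * Real.log X) := by
      apply Real.le_sqrt_of_sq_le
      have h6 : 1 ≤ Real.log X := by
        rw [Real.le_log_iff_exp_le (by linarith)]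
        linarith [Real.exp_one_lt_d9]
      nlinarith
    rw [div_le_iff₀ hc] at h5
    linarith
  linarith

end Pool.Agent.helper12.PE
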